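import Pool.Agent.Run7.h788.OM.BrDefs

/-!
# Project OM (MP_17f4cb_nt), piece BR2: discriminants and splitting in quadratic fields
-/

set_option autoImplicit false

open NumberField

namespace Run7.h323.OM

open Run7.h788.OM

/-- a quadratic order with basis `1, w`, `w² = t w - n` -/
structure QB (B : Type*) [CommRing B] (w : B) (t n : ℤ) : Prop where
  span : ∀ z : B, ∃ m k : ℤ, z = (m : B) + k * w
  ind : ∀ m k : ℤ, (m : B) + k * w = 0 → m = 0 ∧ k = 0
  eq : w ^ 2 = t * w - n

section QB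

variable {B : Type*} [CommRing B] {w : B} {t n : ℤ}

theorem QB.ext (h : QB B w t n) {m k m' k' : ℤ} (he : (m : B) + k * w = m' + k' * w) :
    m = m' ∧ k = k' := by
  have h1 := h.ind (m - m') (k - k') (by push_cast; linear_combination he)
  omega

theorem QB.mem_span (h : QB B w t n) (p m k : ℤ) :
    (m : B) + k * w ∈ Ideal.span {(p : B)} ↔ p ∣ m ∧ p ∣ k := by
  rw [Ideal.mem_span_singleton]
  constructor
  · rintro ⟨z, hz⟩
    obtain ⟨a, b, rfl⟩ := h.span z
    have := h.ext (m := m) (k := k) (m' := p * a) (k' := p * b) (by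
      rw [hz]; push_cast; ring)
    exact ⟨⟨a, this.1⟩, ⟨b, this.2⟩⟩
  · rintro ⟨⟨a, rfl⟩, ⟨b, rfl⟩⟩
    exact ⟨(a : B) + b * w, by push_cast; ring⟩

theorem QB.shift (h : QB B w t n) (r : ℤ) :
    QB B (w - r) (t - 2 * r) (r ^ 2 - t * r + n) where
  span z := by
    obtain ⟨m, k, rfl⟩ := h.span z
    exact ⟨m + k * r, k, by push_cast; ring⟩
  ind m k he := by
    have := h.ind (m - k * r) k (by push_cast; linear_combination he)
    obtain ⟨h1, h2⟩ := this
    subst h2
    simpa using h1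
  eq := by
    have := h.eq
    push_cast
    linear_combination this

theorem QB.mul (h : QB B w t n) (a b c d : ℤ) :
    ((a : B) + b * w) * ((c : B) + d * w) =
      ((a * c - b * d * n : ℤ) : B) + ((a * d + b * c + b * d * t : ℤ) : B) * w := by
  have := h.eq
  push_cast
  linear_combination ((b : B) * d) * this

/-- no root: inert -/
theorem QB.inert (h : QB B w t n) {p : ℤ} (hp : Prime p)
    (hno : ∀ r : ℤ, ¬ p ∣ r ^ 2 - t * r + n) : (Ideal.span {(p : B)}).IsPrime := by
  have key : ∀ a b : ℤ, p ∣ a ^ 2 + a * b * t + b ^ 2 * n → p ∣ a ∧ p ∣ b := by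
    intro a b hab
    by_cases hb : p ∣ b
    · refine ⟨?_, hb⟩
      have h1 : p ∣ a ^ 2 := by
        have : a ^ 2 = (a ^ 2 + a * b * t + b ^ 2 * n) - b * (a * t + b * n) := by ring
        rw [this]
        exact dvd_sub hab (Dvd.dvd.mul_right hb _)
      exact hp.dvd_of_dvd_pow h1
    · exfalso
      have hcop : IsCoprime p b := (Prime.coprime_iff_not_dvd hp).2 hb
      obtain ⟨u, v, huv⟩ := hcop
      -- `v b = 1 - u p`
      apply hno (-(v * a))
      have h2 : (-(v * a)) ^ 2 - t * (-(v * a)) + n =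
          v ^ 2 * (a ^ 2 + a * b * t + b ^ 2 * n) + p * (u * (v * a * t + n * (1 + v * b))) := by
        linear_combination (-(v * a * t + n * (1 + v * b))) * huv
      rw [h2]
      exact dvd_add (Dvd.dvd.mul_left hab _) (dvd_mul_right _ _)
  rw [Ideal.isPrime_iff]
  constructor
  · intro htop
    have h1 : (1 : B) ∈ Ideal.span {(p : B)} := htop ▸ Submodule.mem_top
    have h2 := (h.mem_span p 1 0).1 (by push_cast; simpa using h1)
    exact hp.not_dvd_one h2.1
  · intro x y hxy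
    obtain ⟨a, b, rfl⟩ := h.span x
    obtain ⟨c, d, rfl⟩ := h.span y
    rw [h.mul, h.mem_span] at hxy
    obtain ⟨h1, h2⟩ := hxy
    have hN : p ∣ (a ^ 2 + a * b * t + b ^ 2 * n) * (c ^ 2 + c * d * t + d ^ 2 * n) := by
      have : (a ^ 2 + a * b * t + b ^ 2 * n) * (c ^ 2 + c * d * t + d ^ 2 * n) =
          (a * c - b * d * n) * ((a * c - b * d * n) + (a * d + b * c + b * d * t) * t) +
          (a * d + b * c + b * d * t) * ((a * d + b * c + b * d * t) * n) := by ring
      rw [this]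
      exact dvd_add (Dvd.dvd.mul_right h1 _) (Dvd.dvd.mul_right h2 _)
    rcases hp.dvd_or_dvd hN with h3 | h3
    · left
      rw [h.mem_span]
      exact key a b h3
    · right
      rw [h.mem_span]
      exact key c d h3

/-- a root: not inert -/
theorem QB.not_inert (h : QB B w t n) {p : ℤ} (hp : Prime p) {r : ℤ}
    (hr : p ∣ r ^ 2 - t * r + n) : ¬ (Ideal.span {(p : B)}).IsPrime := by
  intro hP
  have h1 : ((-r : ℤ) : B) + ((1 : ℤ) : B) * w ∉ Ideal.span {(p : B)} := by
    rw [h.mem_span]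
    exact fun hh => hp.not_dvd_one hh.2
  have h2 : ((r - t : ℤ) : B) + ((1 : ℤ) : B) * w ∉ Ideal.span {(p : B)} := by
    rw [h.mem_span]
    exact fun hh => hp.not_dvd_one hh.2
  have h3 : (((-r : ℤ) : B) + ((1 : ℤ) : B) * w) * (((r - t : ℤ) : B) + ((1 : ℤ) : B) * w) ∈
      Ideal.span {(p : B)} := by
    rw [h.mul, h.mem_span]
    constructor
    · have : -r * (r - t) - 1 * 1 * n = -(r ^ 2 - t * r + n) := by ring
      rw [this]
      exact (dvd_neg).2 hr
    · have : -r * 1 + 1 * (r - t) + 1 * 1 * t = 0 := by ring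
      rw [this]
      exact dvd_zero _
  rcases hP.mem_or_mem h3 with h4 | h4
  · exact h1 h4
  · exact h2 h4

/-- two different roots: not ramified -/
theorem QB.not_ram (h : QB B w t n) {p : ℤ} (hp : Prime p)
    (hD : ¬ p ∣ t ^ 2 - 4 * n) : ¬ ∃ P : Ideal B, P ^ 2 = Ideal.span {(p : B)} := by
  rintro ⟨P, hP⟩
  have hle : Ideal.span {(p : B)} ≤ P := by
    rw [← hP, sq]
    exact Ideal.mul_le_right
  have hge : P ≤ Ideal.span {(p : B)} := by
    intro x hx
    have hx2 : x * x ∈ Ideal.span {(p : B)} := by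
      rw [← hP, sq]
      exact Ideal.mul_mem_mul hx hx
    obtain ⟨a, b, rfl⟩ := h.span x
    rw [h.mul, h.mem_span] at hx2
    obtain ⟨h1, h2⟩ := hx2
    have h3 : p ∣ b ^ 4 * (t ^ 2 - 4 * n) := by
      have : b ^ 4 * (t ^ 2 - 4 * n) =
          (a * a - b * b * n) * (4 * b ^ 2) +
            (a * b + b * a + b * b * t) * (2 * t * b ^ 2 - (a * b + b * a + b * b * t)) := by
        ring
      rw [this]
      exact dvd_add (Dvd.dvd.mul_right h1 _) (Dvd.dvd.mul_right h2 _)
    rw [h.mem_span]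
    rcases hp.dvd_or_dvd h3 with h4 | h4
    · have h5 := hp.dvd_of_dvd_pow h4
      refine ⟨?_, h5⟩
      have h6 : p ∣ a ^ 2 := by
        have : a ^ 2 = (a * a - b * b * n) + b * (b * n) := by ring
        rw [this]
        exact dvd_add h1 (Dvd.dvd.mul_right h5 _)
      exact hp.dvd_of_dvd_pow h6
    · exact absurd h4 hD
  have heq : P = Ideal.span {(p : B)} := le_antisymm hge hle
  rw [heq, Ideal.span_singleton_pow] at hP
  have h1 : (p : B) ∈ Ideal.span {(p : B) ^ 2} := by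
    rw [hP]
    exact Ideal.mem_span_singleton_self _
  have h2 : ((p : ℤ) : B) + ((0 : ℤ) : B) * w ∈ Ideal.span {((p ^ 2 : ℤ) : B)} := by
    push_cast
    simpa using h1
  rw [h.mem_span] at h2
  have h3 := h2.1
  have : p * p ∣ p * 1 := by rw [mul_one, ← sq]; exact h3
  exact hp.not_dvd_one ((mul_dvd_mul_iff_left hp.ne_zero).1 this)

/-- a double root: ramified, if the order is maximal at `p` -/
theorem QB.ram (h : QB B w t n) {p : ℤ} (hp : Prime p) (ht : p ∣ t) (hn : p ∣ n)
    (hn2 : ¬ p ^ 2 ∣ n) : ∃ P : Ideal B, P ^ 2 = Ideal.span {(p : B)} := by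
  obtain ⟨t', rfl⟩ := ht
  obtain ⟨n', rfl⟩ := hn
  have hn' : ¬ p ∣ n' := by
    rintro ⟨c, rfl⟩
    exact hn2 ⟨c, by ring⟩
  obtain ⟨u, v, huv⟩ := (Prime.coprime_iff_not_dvd hp).2 hn'
  have hw := h.eq
  refine ⟨Ideal.span {(p : B), w}, ?_⟩
  apply le_antisymm
  · rw [sq, Ideal.span_mul_span', Ideal.span_le]
    rintro x ⟨y, hy, z, hz, rfl⟩
    simp only [Set.mem_insert_iff, Set.mem_singleton_iff] at hy hz
    rw [SetLike.mem_coe, Ideal.mem_span_singleton]
    rcases hy with rfl | rfl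
    · exact Dvd.intro _ rfl
    · rcases hz with rfl | rfl
      · exact Dvd.intro_left _ rfl
      · refine ⟨(t' : B) * z - n', ?_⟩
        push_cast at hw
        show z * z = _
        linear_combination hw
  · rw [Ideal.span_singleton_le_iff_mem]
    have hp2 : (p : B) * p ∈ (Ideal.span {(p : B), w}) ^ 2 := by
      rw [sq]
      exact Ideal.mul_mem_mul (Ideal.subset_span (by simp)) (Ideal.subset_span (by simp))
    have hpw : (p : B) * w ∈ (Ideal.span {(p : B), w}) ^ 2 := by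
      rw [sq]
      exact Ideal.mul_mem_mul (Ideal.subset_span (by simp)) (Ideal.subset_span (by simp))
    have hww : w * w ∈ (Ideal.span {(p : B), w}) ^ 2 := by
      rw [sq]
      exact Ideal.mul_mem_mul (Ideal.subset_span (by simp)) (Ideal.subset_span (by simp))
    have e : (p : B) = (u : B) * ((p : B) * p) + ((v * t' : ℤ) : B) * ((p : B) * w) -
        (v : B) * (w * w) := by
      have huv' : (u : B) * p + v * n' = 1 := by exact_mod_cast congrArg (Int.cast : ℤ → B) huv
      push_cast at hw ⊢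
      linear_combination (-(p : B)) * huv' + (v : B) * hw
    have hmem := Ideal.sub_mem _ (Ideal.add_mem _ (Ideal.mul_mem_left _ (u : B) hp2)
      (Ideal.mul_mem_left _ ((v * t' : ℤ) : B) hpw)) (Ideal.mul_mem_left _ (v : B) hww)
    rwa [← e] at hmem

end QB

/-! ### quadratic number fields -/

section NF

variable (E : Type) [Field E] [NumberField E]

theorem exists_QB (h : Module.finrank ℚ E = 2) :
    ∃ (w : 𝓞 E) (t n : ℤ), QB (𝓞 E) w t n ∧ discr E = t ^ 2 - 4 * n := by
  classical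
  have hr : Module.finrank ℤ (𝓞 E) = 2 := by rw [RingOfIntegers.rank, h]
  let b : Module.Basis (Fin 2) ℤ (𝓞 E) := Module.finBasisOfFinrankEq ℤ (𝓞 E) hr
  set a := b.repr 1 0 with ha
  set c := b.repr 1 1 with hc
  have hsum : ∀ z : 𝓞 E, z = ((b.repr z 0 : ℤ) : 𝓞 E) * b 0 + ((b.repr z 1 : ℤ) : 𝓞 E) * b 1 := by
    intro z
    have := b.sum_repr z
    rw [Fin.sum_univ_two] at this
    simpa only [zsmul_eq_mul] using this.symm
  have h1 : (1 : 𝓞 E) = (a : 𝓞 E) * b 0 + (c : 𝓞 E) * b 1 := hsum 1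
  have hind0 : ∀ x y : ℤ, (x : 𝓞 E) * b 0 + (y : 𝓞 E) * b 1 = 0 → x = 0 ∧ y = 0 := by
    intro x y hxy
    have hb := b.linearIndependent
    rw [Fintype.linearIndependent_iff] at hb
    have := hb ![x, y] (by
      rw [Fin.sum_univ_two]
      simpa [zsmul_eq_mul] using hxy)
    exact ⟨by simpa using this 0, by simpa using this 1⟩
  have hcop : IsCoprime a c := by
    rw [Int.isCoprime_iff_gcd_eq_one]
    obtain ⟨a', ha'⟩ : ((Int.gcd a c : ℕ) : ℤ) ∣ a := Int.gcd_dvd_left ..
    obtain ⟨c', hc'⟩ : ((Int.gcd a c : ℕ) : ℤ) ∣ c := Int.gcd_dvd_right ..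
    set g : ℤ := ((Int.gcd a c : ℕ) : ℤ) with hg
    have h2 : (algebraMap ℤ (𝓞 E) g) * ((a' : 𝓞 E) * b 0 + (c' : 𝓞 E) * b 1) = 1 := by
      conv_rhs => rw [h1, ha', hc']
      simp only [algebraMap_int_eq, eq_intCast]
      push_cast
      ring
    have h3 := congrArg (Algebra.norm ℤ) h2
    rw [map_mul, Algebra.norm_algebraMap, hr, map_one (Algebra.norm ℤ)] at h3
    have h4 : g ∣ 1 := ⟨g * Algebra.norm ℤ ((a' : 𝓞 E) * b 0 + (c' : 𝓞 E) * b 1), by
      rw [← mul_assoc, ← sq]; exact h3.symm⟩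
    have h5 : g = 1 := by
      have hg0 : 0 ≤ g := by rw [hg]; positivity
      exact Int.eq_one_of_dvd_one hg0 h4
    rw [hg] at h5
    exact_mod_cast h5
  obtain ⟨u, v, huv⟩ := hcop
  set w : 𝓞 E := -(v : 𝓞 E) * b 0 + (u : 𝓞 E) * b 1 with hw
  have hspan : ∀ z : 𝓞 E, ∃ m k : ℤ, z = (m : 𝓞 E) + k * w := by
    intro z
    refine ⟨b.repr z 0 * u + b.repr z 1 * v, -(b.repr z 0) * c + b.repr z 1 * a, ?_⟩
    have huv' : (u : 𝓞 E) * a + v * c = 1 := by exact_mod_cast congrArg (Int.cast : ℤ → 𝓞 E) huv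
    have hz := hsum z
    set x := b.repr z 0
    set y := b.repr z 1
    rw [hw]
    push_cast
    have e : ((x : 𝓞 E) * u + y * v) = ((x : 𝓞 E) * u + y * v) * ((a : 𝓞 E) * b 0 + (c : 𝓞 E) * b 1) := by
      rw [← h1, mul_one]
    rw [e, hz]
    linear_combination (-(x : 𝓞 E) * b 0 - (y : 𝓞 E) * b 1) * huv'
  have hind : ∀ m k : ℤ, (m : 𝓞 E) + k * w = 0 → m = 0 ∧ k = 0 := by
    intro m k hmk
    have h2 := hind0 (m * a - k * v) (m * c + k * u) (by
      rw [hw] at hmk
      push_cast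
      have e : (m : 𝓞 E) = (m : 𝓞 E) * ((a : 𝓞 E) * b 0 + (c : 𝓞 E) * b 1) := by rw [← h1, mul_one]
      rw [e] at hmk
      linear_combination hmk)
    obtain ⟨h3, h4⟩ := h2
    constructor
    · have : m = u * (m * a - k * v) + v * (m * c + k * u) := by linear_combination (-m) * huv
      rw [this, h3, h4]; ring
    · have : k = a * (m * c + k * u) - c * (m * a - k * v) := by linear_combination (-k) * huv
      rw [this, h3, h4]; ring
  obtain ⟨n0, t, hnt⟩ := hspan (w ^ 2)
  have hQ : QB (𝓞 E) w t (-n0) := ⟨hspan, hind, by rw [hnt]; push_cast; ring⟩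
  refine ⟨w, t, -n0, hQ, ?_⟩
  -- the basis `1, w`
  have hli : LinearIndependent ℤ ![(1 : 𝓞 E), w] := by
    rw [LinearIndependent.pair_iff]
    intro x y hxy
    exact hind x y (by simpa [zsmul_eq_mul] using hxy)
  have hsp : (⊤ : Submodule ℤ (𝓞 E)) ≤ Submodule.span ℤ (Set.range ![(1 : 𝓞 E), w]) := by
    rintro z -
    obtain ⟨m, k, rfl⟩ := hspan z
    rw [Matrix.range_cons, Matrix.range_cons, Matrix.range_empty, Set.union_empty,
      Set.singleton_union]
    rw [Submodule.mem_span_pair]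
    exact ⟨m, k, by simp [zsmul_eq_mul]⟩
  let B : Module.Basis (Fin 2) ℤ (𝓞 E) := Module.Basis.mk hli hsp
  have hB0 : B 0 = 1 := by simp [B]
  have hB1 : B 1 = w := by simp [B]
  have hrepr : ∀ m k : ℤ, B.repr ((m : 𝓞 E) + k * w) 0 = m ∧ B.repr ((m : 𝓞 E) + k * w) 1 = k := by
    intro m k
    have e : (m : 𝓞 E) + k * w = m • B 0 + k • B 1 := by
      rw [hB0, hB1, zsmul_eq_mul, zsmul_eq_mul, mul_one]
    rw [e, map_add, map_smul, map_smul, B.repr_self, B.repr_self]
    constructor <;> simp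
  have htr : ∀ m k : ℤ, Algebra.trace ℤ (𝓞 E) ((m : 𝓞 E) + k * w) = 2 * m + k * t := by
    intro m k
    rw [Algebra.trace_eq_matrix_trace B, Matrix.trace_fin_two, Algebra.leftMulMatrix_eq_repr_mul,
      Algebra.leftMulMatrix_eq_repr_mul, hB0, hB1, mul_one]
    have e : ((m : 𝓞 E) + k * w) * w = ((k * n0 : ℤ) : 𝓞 E) + ((m + k * t : ℤ) : 𝓞 E) * w := by
      push_cast
      linear_combination (k : 𝓞 E) * hnt
    rw [e, (hrepr _ _).1, (hrepr _ _).2]
    ring
  rw [← discr_eq_discr E B, Algebra.discr_def, Matrix.det_fin_two]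
  simp only [Algebra.traceMatrix_apply, Algebra.traceForm_apply, hB0, hB1, mul_one, one_mul]
  have e1 : Algebra.trace ℤ (𝓞 E) 1 = 2 := by
    have := htr 1 0
    simpa using this
  have e2 : Algebra.trace ℤ (𝓞 E) w = t := by
    have := htr 0 1
    simpa using this
  have e3 : Algebra.trace ℤ (𝓞 E) (w * w) = 2 * n0 + t * t := by
    rw [← sq, hnt]
    exact htr n0 t
  rw [e1, e2, e3]
  ring

theorem sq_lemma {D x : ℤ} (hx : x % 2 = 1) : (x * x * D) % 4 = D % 4 := by
  have : x * x = 4 * ((x / 2) * (x / 2) + x / 2) + 1 := by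
    have hx2 : x = 2 * (x / 2) + 1 := by omega
    generalize x / 2 = y at hx2 ⊢
    rw [hx2]; ring
  rw [this]
  have e : (4 * (x / 2 * (x / 2) + x / 2) + 1) * D = D + 4 * ((x / 2 * (x / 2) + x / 2) * D) := by ring
  rw [e]
  omega

/-- the discriminant of a quadratic field is fundamental: key property -/
theorem fund_key {w : 𝓞 E} {t n : ℤ} (hQ : QB (𝓞 E) w t n) {k D' : ℤ}
    (hD : t ^ 2 - 4 * n = k * k * D') (hk : k ≠ 0) (hD' : D' % 4 = 0 ∨ D' % 4 = 1) : IsUnit k := by
  -- `s = 2 w - t`, `s² = k² D'`; `a = (D' + s / k) / 2`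
  have hkE : (k : E) ≠ 0 := by exact_mod_cast hk
  obtain ⟨q, hq⟩ : ∃ q : ℤ, D' ^ 2 - D' = 4 * q := by
    rcases hD' with h | h
    · obtain ⟨y, hy⟩ : ∃ y, D' = 4 * y := ⟨D' / 4, by omega⟩
      exact ⟨4 * y ^ 2 - y, by rw [hy]; ring⟩
    · obtain ⟨y, hy⟩ : ∃ y, D' = 4 * y + 1 := ⟨D' / 4, by omega⟩
      exact ⟨4 * y ^ 2 + y, by rw [hy]; ring⟩
  set W : E := (w : E) with hW
  have hw : W ^ 2 = t * W - n := by
    have := congrArg (algebraMap (𝓞 E) E) hQ.eq
    simpa using this
  set α : E := (D' + (2 * W - t) / k) / 2 with hα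
  have hα2 : α ^ 2 - D' * α + q = 0 := by
    have h4 : (4 : E) * (α ^ 2 - D' * α + q) = 0 := by
      have e1 : 2 * α - D' = (2 * W - t) / k := by
        rw [hα]; ring
      have e2 : (2 * α - D') ^ 2 = D' := by
        rw [e1, div_pow, div_eq_iff (pow_ne_zero 2 hkE)]
        have hD2 : (t : E) ^ 2 - 4 * n = k * k * D' := by exact_mod_cast congrArg (Int.cast : ℤ → E) hD
        linear_combination 4 * hw + hD2
      have hq' : (D' : E) ^ 2 - D' = 4 * q := by exact_mod_cast congrArg (Int.cast : ℤ → E) hq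
      linear_combination e2 - hq'
    have h40 : (4 : E) ≠ 0 := by norm_num
    exact (mul_eq_zero.1 h4).resolve_left h40
  have hint : IsIntegral ℤ α := by
    refine ⟨Polynomial.X ^ 2 - Polynomial.C D' * Polynomial.X + Polynomial.C q, ?_, ?_⟩
    · have : (Polynomial.X ^ 2 - Polynomial.C D' * Polynomial.X + Polynomial.C q : Polynomial ℤ) =
          Polynomial.X ^ 2 + (Polynomial.C (-D') * Polynomial.X + Polynomial.C q) := by
        rw [Polynomial.C_neg]; ring
      rw [this]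
      apply Polynomial.monic_X_pow_add
      exact lt_of_le_of_lt Polynomial.degree_linear_le (by norm_num)
    · simp only [Polynomial.eval₂_add, Polynomial.eval₂_sub, Polynomial.eval₂_mul,
        Polynomial.eval₂_pow, Polynomial.eval₂_X, Polynomial.eval₂_C]
      simpa using hα2
  obtain ⟨α', hα'⟩ : ∃ x : 𝓞 E, algebraMap (𝓞 E) E x = α := ⟨⟨α, hint⟩, rfl⟩
  obtain ⟨m, j, hmj⟩ := hQ.span α'
  have hcast : ∀ m k : ℤ, algebraMap (𝓞 E) E ((m : 𝓞 E) + k * w) = m + k * W := by
    intro m k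
    rw [map_add, map_mul, map_intCast, map_intCast]
  have h5 : α = m + j * W := by
    rw [← hα', hmj, hcast]
  have h6 : ((k * D' - t - 2 * m * k : ℤ) : 𝓞 E) + ((2 - 2 * j * k : ℤ) : 𝓞 E) * w = 0 := by
    apply RingOfIntegers.coe_injective
    have : (2 : E) * k * α = k * D' + (2 * W - t) := by
      rw [hα]; field_simp
    have h7 : ((k * D' - t - 2 * m * k : ℤ) : E) + ((2 - 2 * j * k : ℤ) : E) * W = 0 := by
      push_cast
      linear_combination 2 * k * h5 - this
    rw [hcast, map_zero]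
    exact h7
  have h8 := (hQ.ind _ _ h6).2
  exact IsUnit.of_mul_eq_one j (by linarith)

theorem not_sq_disc {w : 𝓞 E} {t n : ℤ} (hQ : QB (𝓞 E) w t n) (y : ℤ) : t ^ 2 - 4 * n ≠ y ^ 2 := by
  intro h
  have hw := hQ.eq
  have h1 : (2 * w - t - y) * (2 * w - t + y) = 0 := by
    have h' : (t : 𝓞 E) ^ 2 - 4 * n = y ^ 2 := by exact_mod_cast congrArg (Int.cast : ℤ → 𝓞 E) h
    linear_combination 4 * hw + h'
  rcases mul_eq_zero.1 h1 with h2 | h2
  · have := hQ.ind (-t - y) 2 (by push_cast; linear_combination h2)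
    omega
  · have := hQ.ind (-t + y) 2 (by push_cast; linear_combination h2)
    omega

theorem isFund_of_QB {w : 𝓞 E} {t n : ℤ} (hQ : QB (𝓞 E) w t n) : IsFund (t ^ 2 - 4 * n) := by
  have hne : t ^ 2 - 4 * n ≠ 0 := by
    have := not_sq_disc E hQ 0
    simpa using this
  have hmod : (t ^ 2 - 4 * n) % 4 = 0 ∨ (t ^ 2 - 4 * n) % 4 = 1 := by
    rcases Int.even_or_odd' t with ⟨y, hy | hy⟩
    · left; rw [hy]; ring_nf; omega
    · right; rw [hy]; ring_nf; omega
  rcases hmod with h4 | h4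
  · right
    obtain ⟨m, hm⟩ : ∃ m, t ^ 2 - 4 * n = 4 * m := ⟨(t ^ 2 - 4 * n) / 4, by omega⟩
    refine ⟨m, hm, ?_, ?_⟩
    · by_contra hcon
      have h5 : m % 4 = 0 ∨ m % 4 = 1 := by omega
      have h6 := fund_key E hQ (k := 2) (D' := m) (by rw [hm]; ring) (by norm_num) h5
      rw [Int.isUnit_iff] at h6
      omega
    · rintro x ⟨c, hc⟩
      refine fund_key E hQ (k := x) (D' := 4 * c) (by rw [hm, hc]; ring) ?_ (by omega)
      rintro rfl
      apply hne
      rw [hm, hc]; ring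
  · left
    refine ⟨h4, ?_, ?_⟩
    · rintro x ⟨c, hc⟩
      have hx0 : x ≠ 0 := by
        rintro rfl
        apply hne
        rw [hc]; ring
      refine fund_key E hQ (k := x) (D' := c) hc hx0 ?_
      right
      have hxodd : x % 2 = 1 := by
        rcases Int.even_or_odd' x with ⟨y, hy | hy⟩
        · exfalso
          rw [hc, hy] at h4
          have : 2 * y * (2 * y) * c = 4 * (y * y * c) := by ring
          rw [this] at h4
          omega
        · omega
      rw [hc] at h4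
      rw [← sq_lemma hxodd]
      exact h4
    · have := not_sq_disc E hQ 1
      simpa using this

theorem isFund_discr (h : Module.finrank ℚ E = 2) : IsFund (discr E) := by
  obtain ⟨w, t, n, hQ, hD⟩ := exists_QB E h
  rw [hD]
  exact isFund_of_QB E hQ

theorem eta_inert {w : 𝓞 E} {t n : ℤ} (hQ : QB (𝓞 E) w t n) {p : ℕ} (hp : p.Prime)
    (h : ∀ r : ℤ, ¬ (p : ℤ) ∣ r ^ 2 - t * r + n) : eta E p = -1 := by
  have h1 := hQ.inert (Nat.prime_iff_prime_int.1 hp) h
  rw [Int.cast_natCast] at h1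
  unfold eta
  rw [if_pos h1]

theorem eta_ram {w : 𝓞 E} {t n : ℤ} (hQ : QB (𝓞 E) w t n) {p : ℕ} (hp : p.Prime) (r : ℤ)
    (h1 : (p : ℤ) ∣ t - 2 * r) (h2 : (p : ℤ) ∣ r ^ 2 - t * r + n)
    (h3 : ¬ (p : ℤ) ^ 2 ∣ r ^ 2 - t * r + n) : eta E p = 0 := by
  have hpz := Nat.prime_iff_prime_int.1 hp
  have h4 := hQ.not_inert hpz h2
  have h5 := (hQ.shift r).ram hpz h1 h2 h3
  rw [Int.cast_natCast] at h4 h5
  unfold eta
  rw [if_neg h4, if_pos h5]

theorem eta_split {w : 𝓞 E} {t n : ℤ} (hQ : QB (𝓞 E) w t n) {p : ℕ} (hp : p.Prime) (r : ℤ)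
    (h1 : (p : ℤ) ∣ r ^ 2 - t * r + n) (h2 : ¬ (p : ℤ) ∣ t ^ 2 - 4 * n) : eta E p = 1 := by
  have hpz := Nat.prime_iff_prime_int.1 hp
  have h4 := hQ.not_inert hpz h1
  have h5 := hQ.not_ram hpz h2
  rw [Int.cast_natCast] at h4 h5
  unfold eta
  rw [if_neg h4, if_neg h5]

theorem eta_eq (h : Module.finrank ℚ E = 2) (p : ℕ) (hp : p.Prime) :
    eta E p = kr (discr E) p := by
  obtain ⟨w, t, n, hQ, hD⟩ := exists_QB E h
  rw [hD]
  have hF := isFund_of_QB E hQ
  have hpz := Nat.prime_iff_prime_int.1 hp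
  unfold kr
  by_cases hp2 : p = 2
  · subst hp2
    rw [if_pos rfl]
    rcases Int.even_or_odd' t with ⟨y, hy | hy⟩
    · -- `t` even: ramified
      have e8 : ¬ (t ^ 2 - 4 * n) % 8 = 1 := by
        have : t ^ 2 - 4 * n = 4 * (y ^ 2 - n) := by rw [hy]; ring
        rw [this]; omega
      have e8' : ¬ (t ^ 2 - 4 * n) % 8 = 5 := by
        have : t ^ 2 - 4 * n = 4 * (y ^ 2 - n) := by rw [hy]; ring
        rw [this]; omega
      rw [if_neg e8, if_neg e8']
      have hm : (y ^ 2 - n) % 4 = 2 ∨ (y ^ 2 - n) % 4 = 3 := by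
        have e : t ^ 2 - 4 * n = 4 * (y ^ 2 - n) := by rw [hy]; ring
        rcases hF with hF | ⟨m, hm, hm2, -⟩
        · rw [e] at hF
          omega
        · rw [e] at hm
          have : m = y ^ 2 - n := by linarith
          rw [← this]
          exact hm2
      -- choose `r` with `r ^ 2 - t r + n = n' ` not divisible by `4` but even
      have key : ∀ r : ℤ, r ^ 2 - t * r + n = (r - y) ^ 2 - (y ^ 2 - n) := by
        intro r; rw [hy]; ring
      rcases hm with hm | hm
      · refine eta_ram E hQ hp y ?_ ?_ ?_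
        · rw [hy]; push_cast; simp
        · rw [key]; push_cast
          have : (y - y) ^ 2 - (y ^ 2 - n) = -(y ^ 2 - n) := by ring
          rw [this]; omega
        · rw [key]; push_cast
          have : (y - y) ^ 2 - (y ^ 2 - n) = -(y ^ 2 - n) := by ring
          rw [this]; omega
      · refine eta_ram E hQ hp (y + 1) ?_ ?_ ?_
        · rw [hy]; push_cast; exact ⟨-1, by ring⟩
        · rw [key]; push_cast
          have : (y + 1 - y) ^ 2 - (y ^ 2 - n) = 1 - (y ^ 2 - n) := by ring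
          rw [this]; omega
        · rw [key]; push_cast
          have : (y + 1 - y) ^ 2 - (y ^ 2 - n) = 1 - (y ^ 2 - n) := by ring
          rw [this]; omega
    · -- `t` odd
      have hz : ∃ z, y * (y + 1) = 2 * z := by
        rcases Int.even_or_odd' y with ⟨x, hx | hx⟩
        · exact ⟨x * (y + 1), by rw [hx]; ring⟩
        · exact ⟨y * (x + 1), by rw [hx]; ring⟩
      obtain ⟨z, hz⟩ := hz
      have e : t ^ 2 - 4 * n = 8 * z + 1 - 4 * n := by
        rw [hy]; linear_combination 4 * hz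
      rcases Int.even_or_odd' n with ⟨x, hx | hx⟩
      · rw [if_pos (by rw [e, hx]; omega)]
        refine eta_split E hQ hp 0 ?_ ?_
        · rw [hx]; push_cast; exact ⟨x, by ring⟩
        · rw [e]; push_cast; omega
      · rw [if_neg (by rw [e, hx]; omega), if_pos (by rw [e, hx]; omega)]
        refine eta_inert E hQ hp ?_
        intro r
        rcases Int.even_or_odd' r with ⟨q, hq | hq⟩
        · have : r ^ 2 - t * r + n = 2 * (2 * q ^ 2 - t * q + x) + 1 := by rw [hq, hx]; ring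
          rw [this]; push_cast; omega
        · have : r ^ 2 - t * r + n = 2 * (2 * q ^ 2 + 2 * q - 2 * y * q - y - q + x) + 1 := by
            rw [hq, hx, hy]; ring
          rw [this]; push_cast; omega
  · rw [if_neg hp2]
    have : Fact p.Prime := ⟨hp⟩
    rw [← jacobiSym.legendreSym.to_jacobiSym]
    obtain ⟨q, hq⟩ : ∃ q : ℤ, (p : ℤ) = 2 * q + 1 := by
      have := hp.eq_one_or_self_of_dvd 2
      have h2 : p % 2 = 1 := by
        rcases hp.eq_two_or_odd with h | h
        · exact absurd h hp2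
        · exact h
      exact ⟨(p : ℤ) / 2, by omega⟩
    have hcop2 : ¬ (p : ℤ) ∣ 2 := by
      intro h2
      have := Int.le_of_dvd (by norm_num) h2
      have h3 := hp.two_le
      omega
    have hcop4 : ¬ (p : ℤ) ∣ 4 := by
      intro h4
      have : (4 : ℤ) = 2 * 2 := by norm_num
      rw [this] at h4
      rcases hpz.dvd_or_dvd h4 with h5 | h5 <;> exact hcop2 h5
    have key4 : ∀ r : ℤ, 4 * (r ^ 2 - t * r + n) = (2 * r - t) ^ 2 - (t ^ 2 - 4 * n) := by
      intro r; ring
    by_cases hpD : (p : ℤ) ∣ t ^ 2 - 4 * n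
    · -- ramified
      have h0 : legendreSym p (t ^ 2 - 4 * n) = 0 := by
        rw [legendreSym.eq_zero_iff]
        exact (ZMod.intCast_zmod_eq_zero_iff_dvd _ p).2 hpD
      rw [h0]
      have hr1 : (p : ℤ) ∣ t - 2 * (t * (q + 1)) := ⟨-t, by rw [hq]; ring⟩
      have hr2 : (p : ℤ) ∣ (t * (q + 1)) ^ 2 - t * (t * (q + 1)) + n := by
        have h4 : (p : ℤ) ∣ 4 * ((t * (q + 1)) ^ 2 - t * (t * (q + 1)) + n) := by
          rw [key4]
          refine dvd_sub ?_ hpD
          refine Dvd.dvd.pow ?_ (by norm_num)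
          have := (dvd_neg).2 hr1
          rwa [neg_sub] at this
        exact (hpz.dvd_or_dvd h4).resolve_left hcop4
      refine eta_ram E hQ hp (t * (q + 1)) hr1 hr2 ?_
      intro h3
      have hp2D : (p : ℤ) * p ∣ t ^ 2 - 4 * n := by
        have e : t ^ 2 - 4 * n = (t - 2 * (t * (q + 1))) ^ 2 -
            4 * ((t * (q + 1)) ^ 2 - t * (t * (q + 1)) + n) := by ring
        rw [e, ← sq]
        exact dvd_sub (pow_dvd_pow_of_dvd hr1 2) (Dvd.dvd.mul_left h3 _)
      have hnu : ¬ IsUnit (p : ℤ) := hpz.not_isUnit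
      rcases hF with ⟨-, hsq, -⟩ | ⟨m, hm, -, hsq⟩
      · exact hnu (hsq _ hp2D)
      · rw [hm] at hp2D
        apply hnu
        apply hsq
        have hc : IsCoprime ((p : ℤ) * p) 4 := by
          have h5 : IsCoprime (p : ℤ) 4 := (Prime.coprime_iff_not_dvd hpz).2 hcop4
          exact h5.mul_left h5
        exact hc.dvd_of_dvd_mul_left hp2D
    · have hD0 : ((t ^ 2 - 4 * n : ℤ) : ZMod p) ≠ 0 := by
        rw [Ne, ZMod.intCast_zmod_eq_zero_iff_dvd]
        exact hpD
      by_cases hsq : IsSquare ((t ^ 2 - 4 * n : ℤ) : ZMod p)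
      · rw [(legendreSym.eq_one_iff p hD0).2 hsq]
        obtain ⟨y, hy⟩ := hsq
        obtain ⟨y', rfl⟩ := ZMod.intCast_surjective y
        have hy' : (p : ℤ) ∣ y' ^ 2 - (t ^ 2 - 4 * n) := by
          rw [← ZMod.intCast_zmod_eq_zero_iff_dvd, Int.cast_sub, hy]
          push_cast
          ring
        refine eta_split E hQ hp ((t + y') * (q + 1)) ?_ hpD
        have h4 : (p : ℤ) ∣ 4 * (((t + y') * (q + 1)) ^ 2 - t * ((t + y') * (q + 1)) + n) := by
          rw [key4]
          have e : (2 * ((t + y') * (q + 1)) - t) ^ 2 - (t ^ 2 - 4 * n) =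
              (y' ^ 2 - (t ^ 2 - 4 * n)) + (2 * q + 1) * ((t + y') * (2 * y' + (t + y') * (2 * q + 1))) := by
            ring
          rw [e, ← hq]
          exact dvd_add hy' (dvd_mul_right _ _)
        exact (hpz.dvd_or_dvd h4).resolve_left hcop4
      · rw [(legendreSym.eq_neg_one_iff p).2 hsq]
        refine eta_inert E hQ hp ?_
        intro r hr
        apply hsq
        refine ⟨((2 * r - t : ℤ) : ZMod p), ?_⟩
        have h5 : (p : ℤ) ∣ (2 * r - t) ^ 2 - (t ^ 2 - 4 * n) := by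
          rw [← key4]
          exact Dvd.dvd.mul_left hr _
        rw [← ZMod.intCast_zmod_eq_zero_iff_dvd] at h5
        push_cast at h5 ⊢
        linear_combination (-1 : ZMod p) * h5

end NF

end Run7.h323.OM
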