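import Pool.Agent.Run7.h992.OM.Defs

/-!
# Project OM (MP_17f4cb_nt), piece H1: Hecke relations
-/

set_option autoImplicit false

open UpperHalfPlane MeasureTheory Complex Filter Topology
open scoped MatrixGroups

namespace Run7.h323.OM

open Run7.h992.OM

theorem coe_oc {w : ℂ} (h : 0 < w.im) : ((ofComplex w : ℍ) : ℂ) = w := by
  rw [ofComplex_apply_of_im_pos h]

/-- `u ↦ u (a z)` -/
noncomputable def Bop (a : ℕ) : (ℍ → ℂ) →ₗ[ℂ] (ℍ → ℂ) where
  toFun u z := u (ofComplex ((a : ℂ) * z))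
  map_add' _ _ := rfl
  map_smul' _ _ := rfl

/-- `u ↦ ∑_{b < d} u ((z + b) / d)` -/
noncomputable def Uop (d : ℕ) : (ℍ → ℂ) →ₗ[ℂ] (ℍ → ℂ) where
  toFun u z := ∑ b ∈ Finset.range d, u (ofComplex (((z : ℂ) + b) / d))
  map_add' _ _ := by
    ext z
    simp [Finset.sum_add_distrib]
  map_smul' _ _ := by
    ext z
    simp [Finset.mul_sum]

theorem Bop_apply (a : ℕ) (u : ℍ → ℂ) (z : ℍ) : Bop a u z = u (ofComplex ((a : ℂ) * z)) := rfl

theorem Uop_apply (d : ℕ) (u : ℍ → ℂ) (z : ℍ) :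
    Uop d u z = ∑ b ∈ Finset.range d, u (ofComplex (((z : ℂ) + b) / d)) := rfl

theorem im_mul_pos {a : ℕ} (ha : 1 ≤ a) {w : ℂ} (hw : 0 < w.im) : 0 < ((a : ℂ) * w).im := by
  have : (0 : ℝ) < a := by exact_mod_cast ha
  simp only [mul_im, natCast_re, natCast_im, zero_mul, add_zero]
  positivity

theorem im_div_pos {d : ℕ} (hd : 1 ≤ d) {w : ℂ} (hw : 0 < w.im) : 0 < (w / (d : ℂ)).im := by
  have : (0 : ℝ) < d := by exact_mod_cast hd
  have h : (w / (d : ℂ)).im = w.im / d := by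
    rw [show (d : ℂ) = ((d : ℝ) : ℂ) by push_cast; rfl, Complex.div_ofReal_im]
  rw [h]
  positivity

theorem im_add_pos (b : ℤ) {w : ℂ} (hw : 0 < w.im) : 0 < (w + (b : ℂ)).im := by
  simpa using hw

theorem im_addN_pos (b : ℕ) {w : ℂ} (hw : 0 < w.im) : 0 < (w + (b : ℂ)).im := by
  simpa using hw

/-- periodicity -/
def Per (u : ℍ → ℂ) : Prop := ∀ z : ℍ, u ((1 : ℝ) +ᵥ z) = u z

theorem Per.one {u : ℍ → ℂ} (hu : Per u) {w : ℂ} (hw : 0 < w.im) :
    u (ofComplex (w + 1)) = u (ofComplex w) := by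
  have h := hu (ofComplex w)
  rw [← h]
  congr 1
  have h1 : 0 < (w + 1).im := by simpa using hw
  apply UpperHalfPlane.ext
  rw [coe_oc h1, UpperHalfPlane.coe_vadd, coe_oc hw]
  push_cast
  ring

theorem Per.nat {u : ℍ → ℂ} (hu : Per u) {w : ℂ} (hw : 0 < w.im) (n : ℕ) :
    u (ofComplex (w + n)) = u (ofComplex w) := by
  induction n with
  | zero => simp
  | succ n ih =>
    rw [← ih, ← hu.one (im_addN_pos n hw)]
    congr 2
    push_cast
    ring

theorem Per.int {u : ℍ → ℂ} (hu : Per u) {w : ℂ} (hw : 0 < w.im) (n : ℤ) :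
    u (ofComplex (w + n)) = u (ofComplex w) := by
  rcases Int.eq_nat_or_neg n with ⟨m, rfl | rfl⟩
  · simpa using hu.nat hw m
  · have h := hu.nat (im_add_pos (-(m : ℤ)) hw) m
    rw [← h]
    congr 2
    push_cast
    ring

/-- sums over residue systems -/
theorem sum_range_perm {d : ℕ} (hd : 1 ≤ d) (F : ℤ → ℂ) (hF : ∀ b c : ℤ, (d : ℤ) ∣ b - c → F b = F c)
    (σ : ℕ → ℤ) (hσ : ∀ b c : ℕ, b < d → c < d → (d : ℤ) ∣ σ b - σ c → b = c) :
    ∑ b ∈ Finset.range d, F (σ b) = ∑ b ∈ Finset.range d, F b := by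
  have hd0 : (d : ℤ) ≠ 0 := by exact_mod_cast (by omega : d ≠ 0)
  have key : ∀ b : ℕ, (((σ b) % d).toNat : ℤ) = σ b % d := fun b =>
    Int.toNat_of_nonneg (Int.emod_nonneg _ hd0)
  have hlt : ∀ b : ℕ, ((σ b) % d).toNat < d := fun b => by
    have := Int.emod_lt_of_pos (σ b) (by exact_mod_cast hd : (0 : ℤ) < d)
    have h2 := key b
    omega
  refine Finset.sum_bij (fun b _ => ((σ b) % d).toNat) ?_ ?_ ?_ ?_
  · intro b _
    exact Finset.mem_range.2 (hlt b)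
  · intro b hb c hc h
    apply hσ b c (Finset.mem_range.1 hb) (Finset.mem_range.1 hc)
    have h1 := key b
    have h2 := key c
    rw [show (((σ b) % d).toNat) = (((σ c) % d).toNat) from h] at h1
    rw [h1] at h2
    exact Int.dvd_of_emod_eq_zero (Int.emod_eq_emod_iff_emod_sub_eq_zero.1 h2)
  · intro c hc
    have hsurj : Function.Surjective (fun b : Fin d => (⟨((σ b) % d).toNat, hlt b⟩ : Fin d)) := by
      apply Finite.surjective_of_injective
      intro b c h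
      have h' : ((σ b) % d).toNat = ((σ c) % d).toNat := congrArg Fin.val h
      apply Fin.ext
      apply hσ b c b.2 c.2
      have h1 := key b
      have h2 := key c
      rw [h'] at h1
      rw [h1] at h2
      exact Int.dvd_of_emod_eq_zero (Int.emod_eq_emod_iff_emod_sub_eq_zero.1 h2)
    obtain ⟨b, hb⟩ := hsurj ⟨c, Finset.mem_range.1 hc⟩
    exact ⟨b, Finset.mem_range.2 b.2, congrArg Fin.val hb⟩
  · intro b _
    apply hF
    have := key b
    rw [this]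
    exact ⟨σ b / d, by have := Int.emod_add_mul_ediv (σ b) d; linarith⟩

theorem hk_eq {n : ℕ} (hn : 1 ≤ n) (u : ℍ → ℂ) :
    hk n u = (((Real.sqrt n : ℝ) : ℂ)⁻¹) • ∑ d ∈ n.divisors, Bop (n / d) (Uop d u) := by
  ext z
  simp only [hk, Pi.smul_apply, Finset.sum_apply, smul_eq_mul]
  congr 1
  refine Finset.sum_congr rfl fun d hd => ?_
  have hdn := Nat.dvd_of_mem_divisors hd
  have h1 : 1 ≤ n / d := Nat.div_pos (Nat.le_of_dvd hn hdn) (Nat.pos_of_dvd_of_pos hdn hn)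
  rw [Bop_apply, Uop_apply]
  refine Finset.sum_congr rfl fun b _ => ?_
  rw [coe_oc (im_mul_pos h1 z.im_pos)]

theorem Bop_Bop {a b : ℕ} (hb : 1 ≤ b) (u : ℍ → ℂ) : Bop b (Bop a u) = Bop (a * b) u := by
  ext z
  rw [Bop_apply, Bop_apply, Bop_apply, coe_oc (im_mul_pos hb z.im_pos)]
  congr 2
  push_cast
  ring

theorem Uop_Uop {a b : ℕ} (ha : 1 ≤ a) (hb : 1 ≤ b) (u : ℍ → ℂ) :
    Uop a (Uop b u) = Uop (a * b) u := by
  ext z
  have hac : (a : ℂ) ≠ 0 := by exact_mod_cast (by omega : a ≠ 0)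
  have hbc : (b : ℂ) ≠ 0 := by exact_mod_cast (by omega : b ≠ 0)
  rw [Uop_apply, Uop_apply]
  have h1 : ∀ i : ℕ, Uop b u (ofComplex (((z : ℂ) + i) / a)) =
      ∑ j ∈ Finset.range b, u (ofComplex (((z : ℂ) + ((i + a * j : ℕ) : ℂ)) / ((a * b : ℕ) : ℂ))) := by
    intro i
    rw [Uop_apply]
    refine Finset.sum_congr rfl fun j _ => ?_
    rw [coe_oc (im_div_pos ha (im_addN_pos i z.im_pos))]
    congr 2
    push_cast
    field_simp
    ring
  simp only [h1]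
  rw [← Finset.sum_product']
  refine Finset.sum_bij (fun x _ => x.1 + a * x.2) ?_ ?_ ?_ ?_
  · rintro ⟨i, j⟩ h
    simp only [Finset.mem_product, Finset.mem_range] at h ⊢
    calc i + a * j < a + a * j := by omega
      _ = a * (j + 1) := by ring
      _ ≤ a * b := Nat.mul_le_mul_left a h.2
  · rintro ⟨i, j⟩ h ⟨i', j'⟩ h' he
    simp only [Finset.mem_product, Finset.mem_range] at h h' he
    have h1 : i = i' := by
      have := congrArg (· % a) he
      simpa [Nat.add_mul_mod_self_left, Nat.mod_eq_of_lt h.1, Nat.mod_eq_of_lt h'.1] using this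
    subst h1
    have h2 : j = j' := by
      have := Nat.add_left_cancel he
      exact Nat.eq_of_mul_eq_mul_left (by omega) this
    rw [h2]
  · intro c hc
    have hc' := Finset.mem_range.1 hc
    refine ⟨(c % a, c / a), ?_, ?_⟩
    · simp only [Finset.mem_product, Finset.mem_range]
      refine ⟨Nat.mod_lt _ ha, ?_⟩
      rw [Nat.div_lt_iff_lt_mul ha]
      linarith [mul_comm a b]
    · exact Nat.mod_add_div c a
  · rintro ⟨i, j⟩ _
    rfl

theorem Uop_Bop_coprime {a d : ℕ} (ha : 1 ≤ a) (hd : 1 ≤ d) (h : Nat.Coprime a d) {u : ℍ → ℂ}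
    (hu : Per u) : Uop d (Bop a u) = Bop a (Uop d u) := by
  ext z
  have hdc : (d : ℂ) ≠ 0 := by exact_mod_cast (by omega : d ≠ 0)
  have hwz : 0 < ((a : ℂ) * (z : ℂ)).im := im_mul_pos ha z.im_pos
  rw [Uop_apply, Bop_apply, Uop_apply]
  have hF : ∀ b c : ℤ, (d : ℤ) ∣ b - c →
      u (ofComplex (((a : ℂ) * (z : ℂ) + (b : ℂ)) / d)) =
        u (ofComplex (((a : ℂ) * (z : ℂ) + (c : ℂ)) / d)) := by
    rintro b c ⟨t, ht⟩
    have hb : b = c + d * t := by linarith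
    rw [← hu.int (im_div_pos hd (im_add_pos c hwz)) t]
    congr 2
    rw [hb]
    push_cast
    field_simp
    ring
  have key := sum_range_perm hd (fun b : ℤ => u (ofComplex (((a : ℂ) * (z : ℂ) + (b : ℂ)) / d))) hF
    (fun b : ℕ => ((a * b : ℕ) : ℤ)) (by
      intro b c hb hc hdvd
      have h1 : (d : ℤ) ∣ (a : ℤ) * ((b : ℤ) - c) := by
        have : (a : ℤ) * ((b : ℤ) - c) = ((a * b : ℕ) : ℤ) - ((a * c : ℕ) : ℤ) := by push_cast; ring
        rw [this]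
        exact hdvd
      have h2 : (d : ℤ) ∣ (b : ℤ) - c := by
        apply IsCoprime.dvd_of_dvd_mul_left _ h1
        exact (Nat.isCoprime_iff_coprime.2 h).symm
      have h3 := Int.eq_zero_of_abs_lt_dvd h2 (by rw [abs_lt]; constructor <;> omega)
      omega)
  calc ∑ b ∈ Finset.range d, Bop a u (ofComplex (((z : ℂ) + b) / d))
      = ∑ b ∈ Finset.range d,
        u (ofComplex (((a : ℂ) * (z : ℂ) + (((a * b : ℕ) : ℤ) : ℂ)) / d)) := by
        refine Finset.sum_congr rfl fun b _ => ?_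
        rw [Bop_apply, coe_oc (im_div_pos hd (im_addN_pos b z.im_pos))]
        congr 2
        push_cast
        field_simp
    _ = ∑ b ∈ Finset.range d, u (ofComplex (((a : ℂ) * (z : ℂ) + ((b : ℤ) : ℂ)) / d)) := key
    _ = _ := by
        refine Finset.sum_congr rfl fun b _ => ?_
        rw [coe_oc hwz]
        push_cast
        rfl

theorem Uop_Bop_self {d : ℕ} (hd : 1 ≤ d) {u : ℍ → ℂ} (hu : Per u) :
    Uop d (Bop d u) = (d : ℂ) • u := by
  ext z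
  have hdc : (d : ℂ) ≠ 0 := by exact_mod_cast (by omega : d ≠ 0)
  rw [Uop_apply]
  have : ∀ b ∈ Finset.range d, Bop d u (ofComplex (((z : ℂ) + b) / d)) = u z := by
    intro b _
    rw [Bop_apply, coe_oc (im_div_pos hd (im_addN_pos b z.im_pos))]
    rw [mul_div_cancel₀ _ hdc, hu.nat z.im_pos, ofComplex_apply]
  rw [Finset.sum_congr rfl this]
  simp

theorem coe_vadd_one (z : ℍ) : (((1 : ℝ) +ᵥ z : ℍ) : ℂ) = (z : ℂ) + 1 := by
  rw [UpperHalfPlane.coe_vadd]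
  push_cast
  ring

theorem Per.Bop {u : ℍ → ℂ} (hu : Per u) {a : ℕ} (ha : 1 ≤ a) : Per (Bop a u) := by
  intro z
  rw [Bop_apply, Bop_apply, coe_vadd_one, mul_add, mul_one, hu.nat (im_mul_pos ha z.im_pos)]

theorem Per.Uop {u : ℍ → ℂ} (hu : Per u) {d : ℕ} (hd : 1 ≤ d) : Per (Uop d u) := by
  intro z
  have hdc : (d : ℂ) ≠ 0 := by exact_mod_cast (by omega : d ≠ 0)
  rw [Uop_apply, Uop_apply, coe_vadd_one]
  have h1 : ∀ b : ℕ, u (ofComplex (((z : ℂ) + 1 + b) / d)) =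
      u (ofComplex (((z : ℂ) + ((b + 1 : ℕ) : ℂ)) / d)) := by
    intro b
    congr 3
    push_cast
    ring
  simp only [h1]
  have h2 := Finset.sum_range_succ (fun b : ℕ => u (ofComplex (((z : ℂ) + (b : ℂ)) / d))) d
  rw [Finset.sum_range_succ'] at h2
  have h3 : u (ofComplex (((z : ℂ) + (d : ℂ)) / d)) = u (ofComplex (((z : ℂ) + ((0 : ℕ) : ℂ)) / d)) := by
    rw [add_div, div_self hdc, hu.one (im_div_pos hd z.im_pos)]
    simp
  rw [h3] at h2
  exact add_right_cancel h2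

/-- invariance under `z ↦ z + 1` suffices -/
theorem hk_mul' {m n : ℕ} (hm : 1 ≤ m) (hn : 1 ≤ n) (h : Nat.Coprime m n) {u : ℍ → ℂ}
    (hu : Per u) : hk m (hk n u) = hk (m * n) u := by
  rw [hk_eq hm, hk_eq hn, hk_eq (Nat.mul_pos hm hn)]
  have hs : ((Real.sqrt ((m * n : ℕ) : ℝ) : ℝ) : ℂ)⁻¹ =
      ((Real.sqrt m : ℝ) : ℂ)⁻¹ * ((Real.sqrt n : ℝ) : ℂ)⁻¹ := by
    rw [← mul_inv]
    congr 1
    rw [← Complex.ofReal_mul, ← Real.sqrt_mul (by positivity)]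
    push_cast
    rfl
  rw [hs, mul_smul]
  congr 1
  have e1 : ∀ d ∈ m.divisors, Bop (m / d) (Uop d ((((Real.sqrt n : ℝ) : ℂ)⁻¹) •
      ∑ e ∈ n.divisors, Bop (n / e) (Uop e u))) =
      (((Real.sqrt n : ℝ) : ℂ)⁻¹) • ∑ e ∈ n.divisors, Bop ((m * n) / (d * e)) (Uop (d * e) u) := by
    intro d hd
    rw [map_smul, map_smul, map_sum, map_sum]
    congr 1
    refine Finset.sum_congr rfl fun e he => ?_
    have hdm := Nat.dvd_of_mem_divisors hd
    have hen := Nat.dvd_of_mem_divisors he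
    have hd1 : 1 ≤ d := Nat.pos_of_dvd_of_pos hdm hm
    have he1 : 1 ≤ e := Nat.pos_of_dvd_of_pos hen hn
    have hmd : 1 ≤ m / d := Nat.div_pos (Nat.le_of_dvd hm hdm) hd1
    have hne : 1 ≤ n / e := Nat.div_pos (Nat.le_of_dvd hn hen) he1
    have hc : Nat.Coprime (n / e) d :=
      (Nat.Coprime.coprime_dvd_left hdm h).symm.coprime_dvd_left (Nat.div_dvd_of_dvd hen)
    rw [Uop_Bop_coprime hne hd1 hc (hu.Uop he1), Bop_Bop hmd, Uop_Uop hd1 he1]
    congr 2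
    rw [Nat.mul_div_mul_comm hdm hen, mul_comm]
  rw [Finset.sum_congr rfl e1, ← Finset.smul_sum]
  congr 1
  rw [← Finset.sum_product']
  have hm0 : m ≠ 0 := by omega
  have hn0 : n ≠ 0 := by omega
  refine Finset.sum_bij' (i := fun x _ => x.1 * x.2) (j := fun x _ => (Nat.gcd x m, Nat.gcd x n))
    ?_ ?_ ?_ ?_ ?_
  · rintro ⟨d, e⟩ hde
    simp only [Finset.mem_product, Nat.mem_divisors] at hde ⊢
    exact ⟨Nat.mul_dvd_mul hde.1.1 hde.2.1, Nat.mul_ne_zero hm0 hn0⟩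
  · intro x hx
    simp only [Finset.mem_product, Nat.mem_divisors]
    exact ⟨⟨Nat.gcd_dvd_right _ _, hm0⟩, ⟨Nat.gcd_dvd_right _ _, hn0⟩⟩
  · rintro ⟨d, e⟩ hde
    simp only [Finset.mem_product, Nat.mem_divisors] at hde
    have h1 : Nat.Coprime e m := (h.coprime_dvd_right hde.2.1).symm
    have h2 : Nat.Coprime d n := h.coprime_dvd_left hde.1.1
    have e1 : Nat.gcd (d * e) m = d := by
      rw [Nat.Coprime.gcd_mul_right_cancel d h1]
      exact Nat.gcd_eq_left hde.1.1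
    have e2 : Nat.gcd (d * e) n = e := by
      rw [Nat.Coprime.gcd_mul_left_cancel e h2]
      exact Nat.gcd_eq_left hde.2.1
    exact Prod.ext e1 e2
  · intro x hx
    simp only
    rw [← Nat.Coprime.gcd_mul x h]
    exact Nat.gcd_eq_left (Nat.dvd_of_mem_divisors hx)
  · rintro ⟨d, e⟩ _
    rfl

theorem hk_mul {m n : ℕ} (hm : 1 ≤ m) (hn : 1 ≤ n) (h : Nat.Coprime m n) {u : ℍ → ℂ}
    (hu : ∀ z : ℍ, u ((1 : ℝ) +ᵥ z) = u z) (z : ℍ) : hk m (hk n u) z = hk (m * n) u z :=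
  congrFun (hk_mul' hm hn h hu) z

theorem Bop_one (u : ℍ → ℂ) : Bop 1 u = u := by
  ext z
  rw [Bop_apply]
  simp [ofComplex_apply]

theorem Uop_one (u : ℍ → ℂ) : Uop 1 u = u := by
  ext z
  rw [Uop_apply]
  simp [ofComplex_apply]

theorem hk_pow_eq {p : ℕ} (hp : p.Prime) (j : ℕ) (u : ℍ → ℂ) :
    ∑ d ∈ (p ^ j).divisors, Bop (p ^ j / d) (Uop d u) =
      ∑ i ∈ Finset.range (j + 1), Bop (p ^ (j - i)) (Uop (p ^ i) u) := by
  rw [Nat.sum_divisors_prime_pow hp]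
  refine Finset.sum_congr rfl fun i hi => ?_
  rw [Nat.pow_div (by have := Finset.mem_range.1 hi; omega) hp.pos]

/-- the key relation without normalisation -/
theorem hk_pow_raw {p : ℕ} (hp : p.Prime) (j : ℕ) {u : ℍ → ℂ} (hu : Per u) :
    (Bop p (∑ i ∈ Finset.range (j + 2), Bop (p ^ (j + 1 - i)) (Uop (p ^ i) u)) +
      Uop p (∑ i ∈ Finset.range (j + 2), Bop (p ^ (j + 1 - i)) (Uop (p ^ i) u))) =
      (∑ i ∈ Finset.range (j + 3), Bop (p ^ (j + 2 - i)) (Uop (p ^ i) u)) +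
        (p : ℂ) • ∑ i ∈ Finset.range (j + 1), Bop (p ^ (j - i)) (Uop (p ^ i) u) := by
  have hp1 : 1 ≤ p := hp.pos
  have hpk : ∀ k : ℕ, 1 ≤ p ^ k := fun k => Nat.pos_of_ne_zero (pow_ne_zero _ hp.ne_zero)
  have e1 : Bop p (∑ i ∈ Finset.range (j + 2), Bop (p ^ (j + 1 - i)) (Uop (p ^ i) u)) =
      ∑ i ∈ Finset.range (j + 2), Bop (p ^ (j + 2 - i)) (Uop (p ^ i) u) := by
    rw [map_sum]
    refine Finset.sum_congr rfl fun i hi => ?_
    rw [Bop_Bop hp1, ← pow_succ]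
    congr 2
    have := Finset.mem_range.1 hi
    congr 1
    omega
  have e2 : Uop p (∑ i ∈ Finset.range (j + 2), Bop (p ^ (j + 1 - i)) (Uop (p ^ i) u)) =
      Bop (p ^ 0) (Uop (p ^ (j + 2)) u) +
        (p : ℂ) • ∑ i ∈ Finset.range (j + 1), Bop (p ^ (j - i)) (Uop (p ^ i) u) := by
    rw [Finset.sum_range_succ, map_add, map_sum, add_comm, Finset.smul_sum]
    congr 1
    · simp only [Nat.sub_self, pow_zero, Bop_one]
      rw [Uop_Uop hp1 (hpk _), ← pow_succ']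
    · refine Finset.sum_congr rfl fun i hi => ?_
      have hi' := Finset.mem_range.1 hi
      have : p ^ (j + 1 - i) = p ^ (j - i) * p := by
        rw [← pow_succ]
        congr 1
        omega
      rw [this, ← Bop_Bop hp1, Uop_Bop_self hp1 ((hu.Uop (hpk i)).Bop (hpk _))]
  rw [e1, e2, ← add_assoc]
  congr 1
  rw [Finset.sum_range_succ _ (j + 2), Nat.sub_self]

theorem hk_pow' {p : ℕ} (hp : p.Prime) (j : ℕ) {u : ℍ → ℂ} (hu : Per u) :
    hk p (hk (p ^ (j + 1)) u) = hk (p ^ (j + 2)) u + hk (p ^ j) u := by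
  have hp1 : 1 ≤ p := hp.pos
  have hpk : ∀ k : ℕ, 1 ≤ p ^ k := fun k => Nat.pos_of_ne_zero (pow_ne_zero _ hp.ne_zero)
  have hp0 : (0 : ℝ) < p := by exact_mod_cast hp.pos
  have hsp : ((Real.sqrt p : ℝ) : ℂ) ≠ 0 := by
    exact_mod_cast (Real.sqrt_pos.2 hp0).ne'
  have hspp : ((Real.sqrt p : ℝ) : ℂ) * ((Real.sqrt p : ℝ) : ℂ) = (p : ℂ) := by
    rw [← Complex.ofReal_mul, Real.mul_self_sqrt hp0.le]
    simp
  have hs : ∀ k : ℕ, ((Real.sqrt ((p ^ k : ℕ) : ℝ) : ℝ) : ℂ) = ((Real.sqrt p : ℝ) : ℂ) ^ k := by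
    intro k
    rw [← Complex.ofReal_pow]
    congr 1
    rw [Nat.cast_pow]
    exact Real.sqrt_eq_iff_mul_self_eq (by positivity) (by positivity) |>.2 (by
      rw [← mul_pow, Real.mul_self_sqrt hp0.le])
  have e0 : ∀ v : ℍ → ℂ, hk p v = (((Real.sqrt p : ℝ) : ℂ)⁻¹) • (Bop p v + Uop p v) := by
    intro v
    have h1 := hk_eq (hpk 1) v
    rw [hk_pow_eq hp 1 v] at h1
    simp only [pow_one] at h1
    rw [h1]
    congr 1
    rw [Finset.sum_range_succ, Finset.sum_range_succ]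
    simp [Bop_one, Uop_one]
  rw [e0, hk_eq (hpk _), hk_eq (hpk _), hk_eq (hpk _), hk_pow_eq hp, hk_pow_eq hp, hk_pow_eq hp,
    map_smul, map_smul, ← smul_add, hk_pow_raw hp j hu, hs, hs, hs, smul_add, smul_add, smul_smul,
    smul_smul, smul_smul]
  have c1 : (((Real.sqrt p : ℝ) : ℂ))⁻¹ * (((Real.sqrt p : ℝ) : ℂ) ^ (j + 1))⁻¹ =
      (((Real.sqrt p : ℝ) : ℂ) ^ (j + 2))⁻¹ := by
    rw [← mul_inv]
    congr 1
    ring
  have c2 : (((Real.sqrt p : ℝ) : ℂ))⁻¹ * (((Real.sqrt p : ℝ) : ℂ) ^ (j + 1))⁻¹ * (p : ℂ) =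
      (((Real.sqrt p : ℝ) : ℂ) ^ j)⁻¹ := by
    rw [← hspp]
    field_simp
    ring
  rw [c2, c1]

theorem hk_pow {p : ℕ} (hp : p.Prime) (j : ℕ) (hj : 1 ≤ j) {u : ℍ → ℂ}
    (hu : ∀ z : ℍ, u ((1 : ℝ) +ᵥ z) = u z) (z : ℍ) :
    hk p (hk (p ^ j) u) z = hk (p ^ (j + 1)) u z + hk (p ^ (j - 1)) u z := by
  obtain ⟨i, rfl⟩ : ∃ i, j = i + 1 := ⟨j - 1, by omega⟩
  exact congrFun (hk_pow' hp i hu) z

end Run7.h323.OM
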