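import Pool.Agent.Run7.h323.OM.H1
import Pool.Agent.Run7.h992.OM.K1

/-!
# Project OM (MP_17f4cb_nt), piece H2: Hecke operators and the kernel operators
-/

set_option autoImplicit false

open UpperHalfPlane MeasureTheory Complex Filter Topology
open scoped MatrixGroups

namespace Run7.h323.OM

open Run7.h992.OM

theorem oddInv_per {u : ℍ → ℂ} (hu : OddInv u) : Per u := by
  intro z
  rw [← modular_T_smul, hu.inv]

theorem coe_S (w : ℍ) : ((ModularGroup.S • w : ℍ) : ℂ) = (-(w : ℂ))⁻¹ := by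
  rw [modular_S_smul, UpperHalfPlane.coe_mk]

theorem hk_prime {p : ℕ} (hp : p.Prime) (v : ℍ → ℂ) :
    hk p v = (((Real.sqrt p : ℝ) : ℂ)⁻¹) • (Bop p v + Uop p v) := by
  have hpk : ∀ k : ℕ, 1 ≤ p ^ k := fun k => Nat.pos_of_ne_zero (pow_ne_zero _ hp.ne_zero)
  have h1 := hk_eq (hpk 1) v
  rw [hk_pow_eq hp 1 v] at h1
  simp only [pow_one] at h1
  rw [h1]
  congr 1
  rw [Finset.sum_range_succ, Finset.sum_range_succ]
  simp [Bop_one, Uop_one]

/-- the Fourier-type function attached to `z` is periodic -/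
theorem F_per {p : ℕ} (hp : 1 ≤ p) {u : ℍ → ℂ} (hu : Per u) {w : ℂ} (hw : 0 < w.im) (b c : ℤ)
    (h : (p : ℤ) ∣ b - c) :
    u (ofComplex ((w + (b : ℂ)) / p)) = u (ofComplex ((w + (c : ℂ)) / p)) := by
  obtain ⟨t, ht⟩ := h
  have hdc : (p : ℂ) ≠ 0 := by exact_mod_cast (by omega : p ≠ 0)
  have hb : b = c + p * t := by linarith
  rw [← hu.int (im_div_pos hp (im_add_pos c hw)) t]
  congr 2
  rw [hb]
  push_cast
  field_simp
  ring

theorem exists_sigma {p : ℕ} (hp : p.Prime) : ∃ σ : ℕ → ℤ, σ 0 = 0 ∧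
    ∀ b : ℕ, 0 < b → b < p → ∃ t : ℤ, (b : ℤ) * σ b + 1 = p * t := by
  have h : ∀ b : ℕ, ∃ c : ℤ, (b = 0 → c = 0) ∧ (0 < b → b < p → ∃ t : ℤ, (b : ℤ) * c + 1 = p * t) := by
    intro b
    by_cases hb : 0 < b ∧ b < p
    · have hc : Nat.Coprime b p := (Nat.coprime_of_lt_prime (by omega) hb.2 hp).symm
      have h1 : ((Nat.gcd b p : ℕ) : ℤ) = b * Nat.gcdA b p + p * Nat.gcdB b p := Nat.gcd_eq_gcd_ab b p
      rw [hc] at h1
      refine ⟨- Nat.gcdA b p, by omega, fun _ _ => ⟨Nat.gcdB b p, ?_⟩⟩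
      push_cast at h1
      linarith
    · exact ⟨0, fun _ => rfl, fun h1 h2 => absurd ⟨h1, h2⟩ hb⟩
  choose σ h1 h2 using h
  exact ⟨σ, h1 0 rfl, h2⟩

theorem sum_S {p : ℕ} (hp : p.Prime) {u : ℍ → ℂ} (hu : OddInv u) (z : ℍ) :
    ∑ b ∈ Finset.range p, u (ofComplex ((((-(z : ℂ))⁻¹) + b) / p)) =
      u (ofComplex ((p : ℂ) * z)) + (Uop p u z - u (ofComplex ((z : ℂ) / p))) := by
  obtain ⟨σ, h0, hσ⟩ := exists_sigma hp
  have hp1 : 1 ≤ p := hp.pos
  have hpc : (p : ℂ) ≠ 0 := by exact_mod_cast hp.ne_zero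
  have hzc : (z : ℂ) ≠ 0 := z.ne_zero
  have hpz : Prime (p : ℤ) := Nat.prime_iff_prime_int.1 hp
  have hnd1 : ¬ (p : ℤ) ∣ 1 := hpz.not_dvd_one
  -- the permuted sum
  have key := sum_range_perm hp1 (fun b : ℤ => u (ofComplex (((z : ℂ) + (b : ℂ)) / p)))
    (fun b c h => F_per hp1 (oddInv_per hu) z.im_pos b c h) σ (by
      intro b c hb hc hdvd
      rcases Nat.eq_zero_or_pos b with rfl | hb0
      · rcases Nat.eq_zero_or_pos c with rfl | hc0
        · rfl
        · exfalso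
          obtain ⟨t, ht⟩ := hσ c hc0 hc
          rw [h0, zero_sub, dvd_neg] at hdvd
          apply hnd1
          have : (1 : ℤ) = p * t - c * σ c := by linarith
          rw [this]
          exact dvd_sub (dvd_mul_right _ _) (Dvd.dvd.mul_left hdvd _)
      · rcases Nat.eq_zero_or_pos c with rfl | hc0
        · exfalso
          obtain ⟨t, ht⟩ := hσ b hb0 hb
          rw [h0, sub_zero] at hdvd
          apply hnd1
          have : (1 : ℤ) = p * t - b * σ b := by linarith
          rw [this]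
          exact dvd_sub (dvd_mul_right _ _) (Dvd.dvd.mul_left hdvd _)
        · obtain ⟨t, ht⟩ := hσ b hb0 hb
          obtain ⟨t', ht'⟩ := hσ c hc0 hc
          have h1 : (p : ℤ) ∣ ((b : ℤ) - c) * σ b := by
            have : ((b : ℤ) - c) * σ b = p * t - p * t' - c * (σ b - σ c) := by linarith
            rw [this]
            exact dvd_sub (dvd_sub (dvd_mul_right _ _) (dvd_mul_right _ _))
              (Dvd.dvd.mul_left hdvd _)
          rcases hpz.dvd_or_dvd h1 with h2 | h2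
          · have h3 := Int.eq_zero_of_abs_lt_dvd h2 (by rw [abs_lt]; constructor <;> omega)
            omega
          · exfalso
            apply hnd1
            have : (1 : ℤ) = p * t - b * σ b := by linarith
            rw [this]
            exact dvd_sub (dvd_mul_right _ _) (Dvd.dvd.mul_left h2 _))
  -- the single terms
  have term : ∀ b : ℕ, 0 < b → b < p → u (ofComplex ((((-(z : ℂ))⁻¹) + b) / p)) =
      u (ofComplex (((z : ℂ) + (σ b : ℂ)) / p)) := by
    intro b hb0 hb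
    obtain ⟨t, ht⟩ := hσ b hb0 hb
    let g : SL(2, ℤ) := ⟨!![(b : ℤ), -t; (p : ℤ), -(σ b)], by
      rw [Matrix.det_fin_two_of]
      linarith⟩
    have hw : 0 < (((z : ℂ) + (σ b : ℂ)) / p).im := im_div_pos hp1 (im_add_pos _ z.im_pos)
    rw [← hu.inv g (ofComplex (((z : ℂ) + (σ b : ℂ)) / p))]
    congr 1
    have hS : 0 < (-(z : ℂ))⁻¹.im := z.im_inv_neg_coe_pos
    apply UpperHalfPlane.ext
    rw [coe_oc (im_div_pos hp1 (im_addN_pos b hS)), coe_specialLinearGroup_apply, coe_oc hw]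
    have e1 : (algebraMap ℤ ℝ (g 0 0) : ℂ) = (b : ℂ) := by simp [g]
    have e2 : (algebraMap ℤ ℝ (g 0 1) : ℂ) = -(t : ℂ) := by simp [g]
    have e3 : (algebraMap ℤ ℝ (g 1 0) : ℂ) = (p : ℂ) := by simp [g]
    have e4 : (algebraMap ℤ ℝ (g 1 1) : ℂ) = -(σ b : ℂ) := by simp [g]
    rw [e1, e2, e3, e4]
    have ht' : (b : ℂ) * (σ b : ℂ) + 1 = p * t := by exact_mod_cast ht
    have e5 : (p : ℂ) * (((z : ℂ) + (σ b : ℂ)) / p) + -(σ b : ℂ) = z := by
      field_simp
      ring
    rw [e5]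
    field_simp
    linear_combination (-(1 : ℂ)) * ht'
  have hS : 0 < (-(z : ℂ))⁻¹.im := z.im_inv_neg_coe_pos
  -- the term `b = 0`
  have term0 : u (ofComplex ((((-(z : ℂ))⁻¹) + ((0 : ℕ) : ℂ)) / p)) = u (ofComplex ((p : ℂ) * z)) := by
    rw [← hu.inv ModularGroup.S (ofComplex ((p : ℂ) * z))]
    congr 1
    apply UpperHalfPlane.ext
    rw [coe_oc (im_div_pos hp1 (im_addN_pos 0 hS)), coe_S, coe_oc (im_mul_pos hp1 z.im_pos)]
    push_cast
    rw [add_zero]
    field_simp
  obtain ⟨q, rfl⟩ : ∃ q, p = q + 1 := ⟨p - 1, by omega⟩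
  rw [Uop_apply]
  rw [Finset.sum_range_succ' (fun b : ℕ => u (ofComplex ((((-(z : ℂ))⁻¹) + b) / ((q + 1 : ℕ) : ℂ)))),
    term0]
  rw [Finset.sum_range_succ'] at key
  rw [h0] at key
  have key' : ∑ b ∈ Finset.range (q + 1), u (ofComplex (((z : ℂ) + (b : ℂ)) / ((q + 1 : ℕ) : ℂ))) =
      ∑ b ∈ Finset.range (q + 1), u (ofComplex (((z : ℂ) + ((b : ℤ) : ℂ)) / ((q + 1 : ℕ) : ℂ))) := by
    refine Finset.sum_congr rfl fun b _ => ?_
    push_cast
    rfl
  rw [key', ← key]
  have e6 : ∑ k ∈ Finset.range q, u (ofComplex ((((-(z : ℂ))⁻¹) + ((k + 1 : ℕ) : ℂ)) / ((q + 1 : ℕ) : ℂ))) =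
      ∑ k ∈ Finset.range q, u (ofComplex (((z : ℂ) + (σ (k + 1) : ℂ)) / ((q + 1 : ℕ) : ℂ))) := by
    refine Finset.sum_congr rfl fun k hk => ?_
    exact term (k + 1) (by omega) (by have := Finset.mem_range.1 hk; omega)
  rw [e6]
  simp only [Int.cast_zero, add_zero]
  ring

theorem hk_oddInv {p : ℕ} (hp : p.Prime) {u : ℍ → ℂ} (hu : OddInv u) : OddInv (hk p u) := by
  have hp1 : 1 ≤ p := hp.pos
  have hpc : (p : ℂ) ≠ 0 := by exact_mod_cast hp.ne_zero
  have hT : ∀ z : ℍ, hk p u (ModularGroup.T • z) = hk p u z := by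
    intro z
    rw [modular_T_smul, hk_prime hp]
    simp only [Pi.smul_apply, Pi.add_apply]
    rw [((oddInv_per hu).Bop hp1) z, ((oddInv_per hu).Uop hp1) z]
  have hS : ∀ z : ℍ, hk p u (ModularGroup.S • z) = hk p u z := by
    intro z
    have hzc : (z : ℂ) ≠ 0 := z.ne_zero
    have hSc : ((ModularGroup.S • z : ℍ) : ℂ) = (-(z : ℂ))⁻¹ := by
      rw [modular_S_smul, UpperHalfPlane.coe_mk]
    rw [hk_prime hp]
    simp only [Pi.smul_apply, Pi.add_apply]
    congr 1
    have e1 : Bop p u (ModularGroup.S • z) = u (ofComplex ((z : ℂ) / p)) := by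
      rw [Bop_apply, hSc, ← hu.inv ModularGroup.S (ofComplex ((z : ℂ) / p))]
      congr 1
      apply UpperHalfPlane.ext
      rw [coe_oc (im_mul_pos hp1 z.im_inv_neg_coe_pos), coe_S, coe_oc (im_div_pos hp1 z.im_pos)]
      field_simp
    have e2 : Uop p u (ModularGroup.S • z) = Bop p u z + (Uop p u z - u (ofComplex ((z : ℂ) / p))) := by
      rw [Uop_apply, hSc, sum_S hp hu z, Bop_apply]
    rw [e1, e2]
    ring
  refine ⟨?_, ?_⟩
  · intro g
    have hg : g ∈ Subgroup.closure ({ModularGroup.S, ModularGroup.T} : Set SL(2, ℤ)) := by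
      rw [SpecialLinearGroup.SL2Z_generators]
      trivial
    induction hg using Subgroup.closure_induction with
    | mem x hx =>
      intro z
      rcases hx with rfl | rfl
      · exact hS z
      · exact hT z
    | one => intro z; rw [one_smul]
    | mul x y _ _ hx hy => intro z; rw [mul_smul, hx, hy]
    | inv x _ hx => intro z; rw [← hx (x⁻¹ • z), smul_inv_smul]
  · intro z
    have hJc : ((UpperHalfPlane.J • z : ℍ) : ℂ) = -(starRingEnd ℂ) (z : ℂ) := coe_J_smul z
    have hJim : 0 < (-(starRingEnd ℂ) (z : ℂ)).im := by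
      rw [← hJc]
      exact (UpperHalfPlane.J • z).im_pos
    rw [hk_prime hp]
    simp only [Pi.smul_apply, Pi.add_apply, smul_eq_mul]
    have e1 : Bop p u (UpperHalfPlane.J • z) = - Bop p u z := by
      rw [Bop_apply, Bop_apply, hJc, ← hu.odd]
      congr 1
      apply UpperHalfPlane.ext
      rw [coe_oc (im_mul_pos hp1 hJim), coe_J_smul, coe_oc (im_mul_pos hp1 z.im_pos)]
      simp
    have e2 : Uop p u (UpperHalfPlane.J • z) = - Uop p u z := by
      rw [Uop_apply, Uop_apply, hJc]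
      have key := sum_range_perm hp1 (fun b : ℤ => u (ofComplex (((z : ℂ) + (b : ℂ)) / p)))
        (fun b c h => F_per hp1 (oddInv_per hu) z.im_pos b c h) (fun b => -(b : ℤ)) (by
          intro b c hb hc hdvd
          have h3 := Int.eq_zero_of_abs_lt_dvd hdvd (by rw [abs_lt]; constructor <;> omega)
          omega)
      have key' : ∑ b ∈ Finset.range p, u (ofComplex (((z : ℂ) + (b : ℂ)) / p)) =
          ∑ b ∈ Finset.range p, u (ofComplex (((z : ℂ) + ((b : ℤ) : ℂ)) / p)) := by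
        refine Finset.sum_congr rfl fun b _ => ?_
        push_cast
        rfl
      rw [key', ← key, ← Finset.sum_neg_distrib]
      refine Finset.sum_congr rfl fun b _ => ?_
      have hb' : 0 < (((z : ℂ) + ((-(b : ℤ) : ℤ) : ℂ)) / p).im :=
        im_div_pos hp1 (im_add_pos _ z.im_pos)
      rw [← hu.odd]
      congr 1
      apply UpperHalfPlane.ext
      rw [coe_oc (im_div_pos hp1 (im_addN_pos b hJim)), coe_J_smul, coe_oc hb']
      simp
      ring
    rw [e1, e2]
    ring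

/-- the affine map `z ↦ (a z + b) / d` as an element of `GL₂(ℝ)` -/
noncomputable def gab (a b d : ℕ) (ha : 1 ≤ a) (hd : 1 ≤ d) : GL (Fin 2) ℝ :=
  .mkOfDetNeZero !![(a : ℝ), (b : ℝ); 0, (d : ℝ)] (by
    rw [Matrix.det_fin_two_of]
    have h1 : (0 : ℝ) < a := by exact_mod_cast ha
    have h2 : (0 : ℝ) < d := by exact_mod_cast hd
    have := mul_pos h1 h2
    simp only [mul_zero, sub_zero]
    exact this.ne')

theorem gab_smul {a b d : ℕ} (ha : 1 ≤ a) (hd : 1 ≤ d) (z : ℍ) :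
    gab a b d ha hd • z = ofComplex (((a : ℂ) * z + b) / d) := by
  apply UpperHalfPlane.ext
  rw [coe_oc (im_div_pos hd (im_addN_pos b (im_mul_pos ha z.im_pos)))]
  have hdet : 0 < (gab a b d ha hd).det.val := by
    have h1 : (0 : ℝ) < a := by exact_mod_cast ha
    have h2 : (0 : ℝ) < d := by exact_mod_cast hd
    have := mul_pos h1 h2
    simpa [gab, Matrix.det_fin_two_of] using this
  rw [coe_smul_of_det_pos hdet]
  simp [gab, num, denom]

theorem hk_gab {n : ℕ} (_hn : 1 ≤ n) (u : ℍ → ℂ) (z : ℍ) :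
    hk n u z = ((Real.sqrt n : ℝ) : ℂ)⁻¹ * ∑ d ∈ n.divisors.attach, ∑ b ∈ Finset.range d.1,
      u (gab (n / d.1) b d.1 (Nat.div_pos (Nat.divisor_le d.2) (Nat.pos_of_mem_divisors d.2))
        (Nat.pos_of_mem_divisors d.2) • z) := by
  rw [hk, ← Finset.sum_attach]
  congr 1
  refine Finset.sum_congr rfl fun d _ => ?_
  refine Finset.sum_congr rfl fun b _ => ?_
  rw [gab_smul]

theorem hk_zero (u : ℍ → ℂ) : hk 0 u = 0 := by
  ext z
  simp [hk]

theorem hk_meas (n : ℕ) {u : ℍ → ℂ} (hu : Measurable u) : Measurable (hk n u) := by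
  rcases Nat.eq_zero_or_pos n with rfl | hn
  · rw [hk_zero]
    exact measurable_const
  · have : hk n u = fun z => ((Real.sqrt n : ℝ) : ℂ)⁻¹ * ∑ d ∈ n.divisors.attach,
        ∑ b ∈ Finset.range d.1,
        u (gab (n / d.1) b d.1 (Nat.div_pos (Nat.divisor_le d.2) (Nat.pos_of_mem_divisors d.2))
          (Nat.pos_of_mem_divisors d.2) • z) := by
      ext z
      exact hk_gab hn u z
    rw [this]
    refine Measurable.const_mul ?_ _
    refine Finset.measurable_sum _ fun d _ => ?_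
    refine Finset.measurable_sum _ fun b _ => ?_
    exact hu.comp (measurable_const_smul _)

theorem hk_bd (n : ℕ) {u : ℍ → ℂ} (hu : Bd u) : Bd (hk n u) := by
  obtain ⟨C, hC⟩ := hu
  refine ⟨‖((Real.sqrt n : ℝ) : ℂ)⁻¹‖ * ∑ d ∈ n.divisors, ∑ _b ∈ Finset.range d, C, fun z => ?_⟩
  rw [hk, norm_mul]
  refine mul_le_mul_of_nonneg_left ?_ (norm_nonneg _)
  refine (norm_sum_le _ _).trans (Finset.sum_le_sum fun d _ => ?_)
  refine (norm_sum_le _ _).trans (Finset.sum_le_sum fun b _ => ?_)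
  exact hC _

/-- change of variables -/
theorem K_smul' (s : ℕ) (g : GL (Fin 2) ℝ) (u : ℍ → ℂ) (z : ℍ) :
    K s (fun w => u (g • w)) z = K s u (g • z) := by
  unfold K
  have h := integral_smul_eq_self (μ := (volume : Measure ℍ))
    (fun w => (k s (g • z) w : ℂ) * u w) (g := g)
  rw [← h]
  refine integral_congr_ae (Eventually.of_forall fun w => ?_)
  simp only [k_smul]

theorem K_integrand {s : ℕ} (hs : 2 ≤ s) {u : ℍ → ℂ} (hm : Measurable u) (hb : Bd u) (z : ℍ) :
    Integrable (fun w => (k s z w : ℂ) * u w) := by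
  obtain ⟨C, hC⟩ := hb
  have h := (k_int hs z).ofReal (𝕜 := ℂ)
  exact Integrable.mul_bdd (c := C) h hm.aestronglyMeasurable (Eventually.of_forall hC)

theorem hk_K {s : ℕ} (hs : 2 ≤ s) (n : ℕ) {u : ℍ → ℂ} (hm : Measurable u) (hb : Bd u) (z : ℍ) :
    K s (hk n u) z = hk n (K s u) z := by
  rcases Nat.eq_zero_or_pos n with rfl | hn
  · rw [hk_zero, hk_zero]
    simp [K]
  · rw [hk_gab hn (K s u) z]
    have h1 : ∀ g : GL (Fin 2) ℝ, K s u (g • z) = ∫ w, (k s z w : ℂ) * u (g • w) := by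
      intro g
      rw [← K_smul' s g u z]
      rfl
    have hint : ∀ g : GL (Fin 2) ℝ, Integrable (fun w => (k s z w : ℂ) * u (g • w)) := by
      intro g
      have hb' : Bd (fun w => u (g • w)) := by
        obtain ⟨C, hC⟩ := hb
        exact ⟨C, fun w => hC _⟩
      exact K_integrand hs (hm.comp (measurable_const_smul g)) hb' z
    simp only [h1]
    have e1 : ∀ d ∈ n.divisors.attach, ∑ b ∈ Finset.range d.1,
        ∫ w, (k s z w : ℂ) * u (gab (n / d.1) b d.1
          (Nat.div_pos (Nat.divisor_le d.2) (Nat.pos_of_mem_divisors d.2))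
          (Nat.pos_of_mem_divisors d.2) • w) =
        ∫ w, ∑ b ∈ Finset.range d.1, (k s z w : ℂ) * u (gab (n / d.1) b d.1
          (Nat.div_pos (Nat.divisor_le d.2) (Nat.pos_of_mem_divisors d.2))
          (Nat.pos_of_mem_divisors d.2) • w) := by
      intro d _
      rw [integral_finsetSum _ fun b _ => hint _]
    rw [Finset.sum_congr rfl e1, ← integral_finsetSum _ fun d _ => integrable_finsetSum _
      fun b _ => hint _, ← integral_const_mul]
    unfold K
    refine integral_congr_ae (Eventually.of_forall fun w => ?_)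
    simp only
    rw [hk_gab hn u w]
    simp only [Finset.mul_sum]
    refine Finset.sum_congr rfl fun d _ => ?_
    refine Finset.sum_congr rfl fun b _ => ?_
    ring

end Run7.h323.OM
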