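import Pool.Agent.Run7.h992.OM.K1

/-!
# Project OM (MP_17f4cb_nt), piece K4: unfolding
-/

set_option autoImplicit false

open UpperHalfPlane MeasureTheory Complex Filter Topology
open scoped MatrixGroups ENNReal

namespace Run7.h323.OM

open Run7.h992.OM

instance countable_SL : Countable SL(2, ℤ) := by
  have : Countable (Matrix (Fin 2) (Fin 2) ℤ) := inferInstanceAs (Countable (Fin 2 → Fin 2 → ℤ))
  exact Subtype.countable

theorem slZ_smul_eq (g : SL(2, ℤ)) (z : ℍ) :
    g • z = (Matrix.SpecialLinearGroup.mapGL ℝ g) • z := rfl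

/-- the elements which move `z` to the Siegel domain are finite in number -/
theorem finite_Sg (z : ℍ) : {g : SL(2, ℤ) | g • z ∈ Sg}.Finite := by
  have hA : {p : Fin 2 → ℤ | ¬ (2 * z.im < normSq ((p 0 : ℂ) * z + p 1))}.Finite := by
    have h1 := (ModularGroup.tendsto_normSq_coprime_pair z).eventually_gt_atTop (2 * z.im)
    rwa [Filter.eventually_cofinite] at h1
  have hB : ∀ p : Fin 2 → ℤ, {g : SL(2, ℤ) | g 1 = p ∧ |(g • z).re| ≤ 1 / 2}.Finite := by
    intro p
    by_cases hp : IsCoprime (p 0) (p 1)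
    · have h1 := (ModularGroup.tendsto_abs_re_smul z hp).eventually_gt_atTop (1 / 2)
      rw [Filter.eventually_cofinite] at h1
      refine (h1.image (fun g : { g : SL(2, ℤ) // g 1 = p } => (g : SL(2, ℤ)))).subset ?_
      rintro g ⟨hg1, hg2⟩
      exact ⟨⟨g, hg1⟩, not_lt.2 hg2, rfl⟩
    · refine Set.Finite.subset (Set.finite_empty) ?_
      rintro g ⟨hg1, _⟩
      apply hp
      rw [← hg1]
      exact ModularGroup.bottom_row_coprime g
  refine (hA.biUnion fun p _ => hB p).subset ?_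
  rintro g ⟨hg1, hg2⟩
  refine Set.mem_biUnion (x := g 1) ?_ ⟨rfl, hg1⟩
  show ¬ (2 * z.im < normSq (((g 1) 0 : ℂ) * z + (g 1) 1))
  rw [ModularGroup.im_smul_eq_div_normSq] at hg2
  have hpos : 0 < normSq (denom g z) := normSq_denom_pos g z.im_ne_zero
  rw [le_div_iff₀ hpos] at hg2
  have hd : denom g z = (((g 1) 0 : ℂ) * z + (g 1) 1) := by
    simp [denom]
  rw [hd] at hg2
  rw [not_lt]
  linarith

theorem measurableSet_Sg : MeasurableSet Sg := by
  have h1 : Measurable fun z : ℍ => |z.re| := (UpperHalfPlane.continuous_re.abs).measurable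
  have h2 : Measurable fun z : ℍ => z.im := UpperHalfPlane.continuous_im.measurable
  exact (measurableSet_le h1 measurable_const).inter (measurableSet_le measurable_const h2)

/-- the number of elements which move `z` to the Siegel domain -/
noncomputable def cnt (z : ℍ) : ℝ≥0∞ := ∑' g : SL(2, ℤ), Sg.indicator 1 (g • z)

theorem cnt_smul (h : SL(2, ℤ)) (z : ℍ) : cnt (h • z) = cnt z := by
  unfold cnt
  rw [← (Equiv.mulRight h).tsum_eq (fun g : SL(2, ℤ) => Sg.indicator (1 : ℍ → ℝ≥0∞) (g • z))]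
  refine tsum_congr fun g => ?_
  rw [Equiv.coe_mulRight, mul_smul]

theorem cnt_pos (z : ℍ) : 1 ≤ cnt z := by
  obtain ⟨g, hg⟩ := ModularGroup.exists_smul_mem_fd z
  have hg' : g • z ∈ Sg := by
    refine ⟨hg.2, ?_⟩
    have := ModularGroup.three_le_four_mul_im_sq_of_mem_fd hg
    have h2 := (g • z).im_pos
    nlinarith
  refine le_trans ?_ (ENNReal.le_tsum g)
  rw [Set.indicator_of_mem hg']
  rfl

theorem cnt_lt_top (z : ℍ) : cnt z < ∞ := by
  unfold cnt
  rw [tsum_eq_sum (s := (finite_Sg z).toFinset) (fun g hg => by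
    have : g • z ∉ Sg := by simpa using hg
    exact Set.indicator_of_notMem this _)]
  refine ENNReal.sum_lt_top.2 fun g _ => ?_
  exact lt_of_le_of_lt (Set.indicator_le_self' (fun _ _ => zero_le) _) (by simp)

theorem measurable_cnt : Measurable cnt := by
  refine Measurable.tsum fun g => ?_
  have h1 : Measurable (Sg.indicator (1 : ℍ → ℝ≥0∞)) := measurable_one.indicator measurableSet_Sg
  exact h1.comp (measurable_const_smul (Matrix.SpecialLinearGroup.mapGL ℝ g))

/-- the weight function -/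
noncomputable def phi (z : ℍ) : ℝ≥0∞ := Sg.indicator (fun z => (cnt z)⁻¹) z

theorem measurable_phi : Measurable phi := measurable_cnt.inv.indicator measurableSet_Sg

theorem tsum_phi (z : ℍ) : ∑' g : SL(2, ℤ), phi (g • z) = 1 := by
  have h1 : ∀ g : SL(2, ℤ), phi (g • z) = Sg.indicator (1 : ℍ → ℝ≥0∞) (g • z) * (cnt z)⁻¹ := by
    intro g
    unfold phi
    by_cases h : g • z ∈ Sg
    · rw [Set.indicator_of_mem h, Set.indicator_of_mem h, cnt_smul, Pi.one_apply, one_mul]
    · rw [Set.indicator_of_notMem h, Set.indicator_of_notMem h, zero_mul]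
  simp only [h1]
  rw [ENNReal.tsum_mul_right]
  exact ENNReal.mul_inv_cancel (lt_of_lt_of_le one_pos (cnt_pos z)).ne' (cnt_lt_top z).ne

/-- the finite measure -/
noncomputable def nu : Measure ℍ := (volume : Measure ℍ).withDensity phi

theorem volume_Sg : (volume : Measure ℍ) Sg < ∞ := by
  have h0 : (volume : Measure ℍ) Sg = ∫⁻ w, Sg.indicator 1 w := by
    rw [lintegral_indicator_one measurableSet_Sg]
  have hm : Measurable (Sg.indicator (1 : ℍ → ℝ≥0∞)) := measurable_one.indicator measurableSet_Sg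
  rw [h0, lintegral_ℍ _ hm]
  have hg : Integrable (fun p : ℝ × ℝ => (1 + p.1 ^ 2)⁻¹ * (1 + p.2 ^ 2)⁻¹)
      ((volume : Measure ℝ).prod volume) :=
    Integrable.mul_prod integrable_inv_one_add_sq integrable_inv_one_add_sq
  have hg2 : Integrable (fun z : ℂ => 16 * ((1 + z.re ^ 2)⁻¹ * (1 + z.im ^ 2)⁻¹)) := by
    refine Integrable.const_mul ?_ _
    have := Complex.volume_preserving_equiv_real_prod.integrable_comp_emb
      Complex.measurableEquivRealProd.measurableEmbedding
      (g := fun p : ℝ × ℝ => (1 + p.1 ^ 2)⁻¹ * (1 + p.2 ^ 2)⁻¹)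
    exact this.2 hg
  refine lt_of_le_of_lt (lintegral_mono_ae ?_) (hg2.integrableOn (s := {z : ℂ | 0 < z.im})).2
  rw [ae_restrict_iff' (measurableSet_lt measurable_const Complex.measurable_im)]
  refine Eventually.of_forall fun z hz => ?_
  have hz' : 0 < z.im := hz
  have e : (ofComplex z : ℂ) = z := by rw [ofComplex_apply_of_im_pos hz']
  have e2 : (ofComplex z).im = z.im := by rw [← coe_im, e]
  have e3 : (ofComplex z).re = z.re := by rw [← coe_re, e]
  by_cases h : ofComplex z ∈ Sg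
  · rw [Set.indicator_of_mem h, Pi.one_apply, mul_one, Real.enorm_of_nonneg (by positivity)]
    refine ENNReal.ofReal_le_ofReal ?_
    obtain ⟨h1, h2⟩ := h
    rw [e3] at h1
    rw [e2] at h2
    show 1 / z.im ^ 2 ≤ 16 * ((1 + z.re ^ 2)⁻¹ * (1 + z.im ^ 2)⁻¹)
    rw [← mul_inv, ← div_eq_mul_inv, div_le_div_iff₀ (by positivity) (by positivity)]
    have h3 : z.re ^ 2 ≤ 1 / 4 := by
      have := sq_abs z.re
      nlinarith [abs_nonneg z.re]
    have h4 : 1 / 4 ≤ z.im ^ 2 := by nlinarith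
    have h5 : 0 ≤ z.re ^ 2 := sq_nonneg _
    nlinarith
  · rw [Set.indicator_of_notMem h, mul_zero]
    exact zero_le

instance : IsFiniteMeasure nu := by
  refine ⟨?_⟩
  rw [nu, withDensity_apply _ MeasurableSet.univ, Measure.restrict_univ]
  refine lt_of_le_of_lt ?_ volume_Sg
  rw [← lintegral_indicator_one measurableSet_Sg]
  refine lintegral_mono fun z => ?_
  unfold phi
  refine Set.indicator_le_indicator ?_
  rw [Pi.one_apply, ENNReal.inv_le_one]
  exact cnt_pos z

theorem nu_compl : nu Sgᶜ = 0 := by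
  rw [nu, withDensity_apply _ measurableSet_Sg.compl]
  rw [setLIntegral_congr_fun measurableSet_Sg.compl (g := fun _ => 0) (fun z hz => by
    exact Set.indicator_of_notMem hz _)]
  simp

theorem vol_eq_zero_of_nu {A : Set ℍ} (hA : MeasurableSet A) (hAS : A ⊆ Sg) (h : nu A = 0) :
    (volume : Measure ℍ) A = 0 := by
  rw [nu, withDensity_apply _ hA, lintegral_eq_zero_iff measurable_phi] at h
  rw [Filter.EventuallyEq, ae_restrict_iff' hA] at h
  have h1 : ∀ᵐ x ∂(volume : Measure ℍ), x ∉ A := by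
    filter_upwards [h] with x hx hxA
    have h2 := hx hxA
    unfold phi at h2
    rw [Set.indicator_of_mem (hAS hxA)] at h2
    have h3 : (cnt x)⁻¹ = 0 := h2
    rw [ENNReal.inv_eq_zero] at h3
    exact (cnt_lt_top x).ne h3
  have h2 : {x | ¬ (x ∉ A)} = A := by ext; simp
  rw [ae_iff, h2] at h1
  exact h1

/-- unfolding of the measure -/
theorem volume_eq_sum : (volume : Measure ℍ) =
    Measure.sum (fun g : SL(2, ℤ) => nu.map (fun z : ℍ => g • z)) := by
  have hgm : ∀ g : SL(2, ℤ), Measurable (fun z : ℍ => g • z) := fun g =>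
    measurable_const_smul (Matrix.SpecialLinearGroup.mapGL ℝ g)
  refine Measure.ext_of_lintegral _ fun f hf => ?_
  rw [lintegral_sum_measure]
  have h1 : ∀ g : SL(2, ℤ), ∫⁻ z, f z ∂(nu.map (fun z : ℍ => g • z)) =
      ∫⁻ z, phi (g⁻¹ • z) * f z := by
    intro g
    have h2 := lintegral_withDensity_eq_lintegral_mul (volume : Measure ℍ) measurable_phi
      (hf.comp (hgm g))
    simp only [Function.comp_apply] at h2
    rw [lintegral_map hf (hgm g), nu, h2]
    rw [← (measurePreserving_smul (Matrix.SpecialLinearGroup.mapGL ℝ g)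
      (volume : Measure ℍ)).lintegral_comp_emb
      (measurableEmbedding_const_smul (Matrix.SpecialLinearGroup.mapGL ℝ g))
      (fun z => phi (g⁻¹ • z) * f z)]
    refine lintegral_congr fun z => ?_
    rw [← slZ_smul_eq, inv_smul_smul]
    rfl
  simp only [h1]
  have h3 := (Equiv.inv (SL(2, ℤ))).tsum_eq (fun g : SL(2, ℤ) => ∫⁻ z, phi (g • z) * f z)
  simp only [Equiv.inv_apply] at h3
  have h4 := lintegral_tsum (μ := (volume : Measure ℍ))
    (f := fun (g : SL(2, ℤ)) (z : ℍ) => phi (g • z) * f z)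
    fun g => ((measurable_phi.comp (hgm g)).mul hf).aemeasurable
  rw [h3, ← h4]
  refine lintegral_congr fun z => ?_
  rw [ENNReal.tsum_mul_right, tsum_phi, one_mul]

/-- unfolding of integrals -/
theorem hasSum_unfold {f : ℍ → ℂ} (hf : Integrable f) (hm : Measurable f) :
    HasSum (fun g : SL(2, ℤ) => ∫ z, f (g • z) ∂nu) (∫ z, f z) := by
  have hgm : ∀ g : SL(2, ℤ), Measurable (fun z : ℍ => g • z) := fun g =>
    measurable_const_smul (Matrix.SpecialLinearGroup.mapGL ℝ g)
  have h1 : Integrable f (Measure.sum (fun g : SL(2, ℤ) => nu.map (fun z : ℍ => g • z))) := by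
    rw [← volume_eq_sum]
    exact hf
  have h2 := hasSum_integral_measure h1
  rw [← volume_eq_sum] at h2
  have h3 : ∀ g : SL(2, ℤ), ∫ z, f z ∂(nu.map (fun z : ℍ => g • z)) = ∫ z, f (g • z) ∂nu := by
    intro g
    rw [integral_map (hgm g).aemeasurable hm.aestronglyMeasurable]
  simpa only [h3] using h2

theorem tsum_enorm {f : ℍ → ℂ} (hf : Integrable f) (hm : Measurable f) :
    ∑' g : SL(2, ℤ), ∫⁻ z, ‖f (g • z)‖ₑ ∂nu ≠ ∞ := by
  have hgm : ∀ g : SL(2, ℤ), Measurable (fun z : ℍ => g • z) := fun g =>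
    measurable_const_smul (Matrix.SpecialLinearGroup.mapGL ℝ g)
  have h1 : ∫⁻ z, ‖f z‖ₑ ≠ ∞ := hf.2.ne
  rw [volume_eq_sum, lintegral_sum_measure] at h1
  have h3 : ∀ g : SL(2, ℤ), ∫⁻ z, ‖f z‖ₑ ∂(nu.map (fun z : ℍ => g • z)) =
      ∫⁻ z, ‖f (g • z)‖ₑ ∂nu := by
    intro g
    rw [lintegral_map hm.enorm (hgm g)]
  simpa only [h3] using h1

theorem unfold : ∃ ν : Measure ℍ, IsFiniteMeasure ν ∧ ν Sgᶜ = 0 ∧
    (∀ A : Set ℍ, MeasurableSet A → A ⊆ Sg → ν A = 0 → volume A = 0) ∧
    ∀ s : ℕ, 6 ≤ s → ∀ u : ℍ → ℂ, OddInv u → Measurable u → Bd u → ∀ z,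
      2 * K s u z = ∫ w, (kap s z w : ℂ) * u w ∂ν := by
  refine ⟨nu, inferInstance, nu_compl, fun A hA h1 h2 => vol_eq_zero_of_nu hA h1 h2, ?_⟩
  intro s hs u hu hm hb z
  have hkm : Measurable fun w => (k s z w : ℂ) :=
    (((k_cont s).comp (continuous_const.prodMk continuous_id)).measurable).complex_ofReal
  have hkJ : Measurable fun w => (k s z (UpperHalfPlane.J • w) : ℂ) :=
    hkm.comp (measurable_const_smul UpperHalfPlane.J)
  obtain ⟨C, hC⟩ := hb
  have hf1 : Integrable (fun w => (k s z w : ℂ) * u w) :=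
    Integrable.mul_bdd (c := C) ((k_int (by omega : 2 ≤ s) z).ofReal (𝕜 := ℂ))
      hm.aestronglyMeasurable (Eventually.of_forall hC)
  have hf2 : Integrable (fun w => (k s z (UpperHalfPlane.J • w) : ℂ) * u w) := by
    have h1 := (measurePreserving_smul UpperHalfPlane.J (volume : Measure ℍ)).integrable_comp_emb
      (measurableEmbedding_const_smul UpperHalfPlane.J) (g := fun w => k s z w)
    exact Integrable.mul_bdd (c := C) ((h1.2 (k_int (by omega : 2 ≤ s) z)).ofReal (𝕜 := ℂ))
      hm.aestronglyMeasurable (Eventually.of_forall hC)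
  have hm1 : Measurable (fun w => (k s z w : ℂ) * u w) := hkm.mul hm
  have hm2 : Measurable (fun w => (k s z (UpperHalfPlane.J • w) : ℂ) * u w) := hkJ.mul hm
  have e1 : ∫ w, (k s z (UpperHalfPlane.J • w) : ℂ) * u w = - K s u z := by
    unfold K
    rw [← integral_neg]
    rw [← integral_smul_eq_self (μ := (volume : Measure ℍ)) (g := UpperHalfPlane.J)
      (fun w => -((k s z w : ℂ) * u w))]
    refine integral_congr_ae (Eventually.of_forall fun w => ?_)
    simp only
    rw [hu.odd]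
    ring
  have hsum := (hasSum_unfold hf1 hm1).sub (hasSum_unfold hf2 hm2)
  rw [e1] at hsum
  have hF : ∀ g : SL(2, ℤ), (∫ w, (k s z (g • w) : ℂ) * u (g • w) ∂nu) -
      (∫ w, (k s z (UpperHalfPlane.J • (g • w)) : ℂ) * u (g • w) ∂nu) =
      ∫ w, ((k s z (g • w) - k s z (UpperHalfPlane.J • (g • w)) : ℝ) : ℂ) * u w ∂nu := by
    intro g
    have i1 : Integrable (fun w => (k s z (g • w) : ℂ) * u (g • w)) nu := by
      refine ⟨(hm1.comp (measurable_const_smul
        (Matrix.SpecialLinearGroup.mapGL ℝ g))).aestronglyMeasurable, ?_⟩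
      exact lt_top_iff_ne_top.2 (ENNReal.ne_top_of_tsum_ne_top (tsum_enorm hf1 hm1) g)
    have i2 : Integrable (fun w => (k s z (UpperHalfPlane.J • (g • w)) : ℂ) * u (g • w)) nu := by
      refine ⟨(hm2.comp (measurable_const_smul
        (Matrix.SpecialLinearGroup.mapGL ℝ g))).aestronglyMeasurable, ?_⟩
      exact lt_top_iff_ne_top.2 (ENNReal.ne_top_of_tsum_ne_top (tsum_enorm hf2 hm2) g)
    rw [← integral_sub i1 i2]
    refine integral_congr_ae (Eventually.of_forall fun w => ?_)
    simp only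
    rw [hu.inv]
    push_cast
    ring
  simp only [hF] at hsum
  have h2 : 2 * K s u z = (∫ w, (k s z w : ℂ) * u w) - -K s u z := by
    have : K s u z = ∫ w, (k s z w : ℂ) * u w := rfl
    rw [← this]
    ring
  rw [h2, ← hsum.tsum_eq, ← integral_tsum]
  · refine integral_congr_ae (Eventually.of_forall fun w => ?_)
    simp only
    rw [tsum_mul_right, ← Complex.ofReal_tsum]
    rfl
  · intro g
    refine Measurable.aestronglyMeasurable ?_
    have h3 : Measurable fun w : ℍ => (k s z (g • w) : ℂ) :=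
      hkm.comp (measurable_const_smul (Matrix.SpecialLinearGroup.mapGL ℝ g))
    have h4 : Measurable fun w : ℍ => (k s z (UpperHalfPlane.J • (g • w)) : ℂ) :=
      hkJ.comp (measurable_const_smul (Matrix.SpecialLinearGroup.mapGL ℝ g))
    have h5 := (h3.sub h4).mul hm
    have h6 : (fun w : ℍ => ((k s z (g • w) - k s z (UpperHalfPlane.J • (g • w)) : ℝ) : ℂ) * u w) =
        ((fun w : ℍ => (k s z (g • w) : ℂ)) - fun w : ℍ => (k s z (UpperHalfPlane.J • (g • w)) : ℂ))
          * u := by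
      ext w
      simp
    rw [h6]
    exact h5
  · have h3 : ∀ g : SL(2, ℤ), ∫⁻ w, ‖((k s z (g • w) - k s z (UpperHalfPlane.J • (g • w)) : ℝ) : ℂ)
        * u w‖ₑ ∂nu ≤ (∫⁻ w, ‖(k s z (g • w) : ℂ) * u (g • w)‖ₑ ∂nu) +
          ∫⁻ w, ‖(k s z (UpperHalfPlane.J • (g • w)) : ℂ) * u (g • w)‖ₑ ∂nu := by
      intro g
      rw [← lintegral_add_left]
      · refine lintegral_mono fun w => ?_
        rw [hu.inv]
        push_cast
        rw [sub_mul]
        exact enorm_sub_le
      · exact (hm1.comp (measurable_const_smul (Matrix.SpecialLinearGroup.mapGL ℝ g))).enorm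
    refine ne_top_of_le_ne_top ?_ (ENNReal.tsum_le_tsum h3)
    rw [ENNReal.tsum_add]
    exact ENNReal.add_ne_top.2 ⟨tsum_enorm hf1 hm1, tsum_enorm hf2 hm2⟩

end Run7.h323.OM
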